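import Mathlib
import Pool.Prelude.Def_H_3587d628

set_option autoImplicit false

namespace Pool.Agent.Lib.MP_8eff38_lc

open Turing

/-- The lobbying problem for unanimity and quota `z`: changing at most `k` rows of `X` gives a
matrix with at least `z m` columns that are all ones. -/
def OLD (z : ℕ → ℕ) {n m : ℕ} (X : Fin n → Fin m → Bool) (k : ℕ) : Prop :=
  ∃ Y : Fin n → Fin m → Bool, (Finset.univ.filter fun i => X i ≠ Y i).card ≤ k ∧
    z m ≤ (Finset.univ.filter fun j => ∀ i, Y i j = true).card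

/-- A polynomial time machine, given the list of rows and the budget, decides the problem. -/
def InP (z : ℕ → ℕ) : Prop :=
  ∃ g : List (List Bool) × ℕ → Bool, N68a2faeb.IsPolyTime g ∧
    ∀ (n m : ℕ) (X : Fin n → Fin m → Bool) (k : ℕ), 0 < n → k ≤ n →
      (g (List.ofFn fun i => List.ofFn (X i), k) = true ↔ OLD z X k)

/-- A list of clauses, each a list of literals (variable, sign), is a satisfiable 3-CNF. -/
def Sat3 (φ : List (List (ℕ × Bool))) : Prop :=
  (∀ C ∈ φ, C.length ≤ 3) ∧ ∃ a : ℕ → Bool, ∀ C ∈ φ, ∃ l ∈ C, a l.1 = l.2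

/-- The number of variables that occur. -/
def nvars (φ : List (List (ℕ × Bool))) : ℕ := (φ.flatten.map Prod.fst).toFinset.card

/-- Some machine computes `g` in time `2 ^ (δ N)` times a polynomial in the input length. -/
def RunsIn (δ : ℝ) (g : List (List (ℕ × Bool)) → Bool) : Prop :=
  ∃ (M : TM2ComputableAux Bool Bool) (q : Polynomial ℕ), ∀ φ,
    Nonempty (TM2OutputsInTime M.tm (List.map M.inputAlphabet.invFun (N487b59b3.bitEncode φ))
      (some (List.map M.outputAlphabet.invFun (N487b59b3.bitEncode (g φ))))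
      ⌊(2 : ℝ) ^ (δ * nvars φ) * (q.eval (N487b59b3.bitEncode φ).length : ℕ)⌋₊)

/-- The exponential time hypothesis. -/
def ETH : Prop :=
  ∃ δ : ℝ, 0 < δ ∧ ¬ ∃ g, RunsIn δ g ∧ ∀ φ, (g φ = true ↔ Sat3 φ)

/-- The almost everywhere form of the exponential time hypothesis. -/
def AeETH : Prop :=
  ∃ δ : ℝ, 0 < δ ∧ ∀ g, RunsIn δ g →
    {N | ∀ φ, nvars φ = N → (g φ = true ↔ Sat3 φ)}.Finite

end Pool.Agent.Lib.MP_8eff38_lc
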