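import Mathlib
import Pool.Agent.Lib.MP_8eff38_lc.Defs

set_option autoImplicit false

namespace Pool.Agent.Lib.MP_8eff38_lc

open Finset

/-- The problem for a matrix given by a function on numbers. -/
def Sel (z n m : ℕ) (F : ℕ → ℕ → Bool) (k : ℕ) : Prop :=
  ∃ J ⊆ range m, z ≤ J.card ∧ ((range n).filter fun i => ∃ j ∈ J, F i j = false).card ≤ k

theorem old_iff (z : ℕ → ℕ) {n m : ℕ} (X : Fin n → Fin m → Bool) (k : ℕ) :
    OLD z X k ↔ ∃ J : Finset (Fin m), z m ≤ J.card ∧
      (univ.filter fun i => ∃ j ∈ J, X i j = false).card ≤ k := by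
  constructor
  · rintro ⟨Y, h1, h2⟩
    refine ⟨_, h2, le_trans (card_le_card fun i hi => ?_) h1⟩
    simp only [mem_filter, mem_univ, true_and] at hi ⊢
    obtain ⟨j, hj, hx⟩ := hi
    intro h
    rw [h, hj i] at hx
    exact absurd hx (by simp)
  · rintro ⟨J, h1, h2⟩
    refine ⟨fun i j => X i j || decide (j ∈ J), le_trans (card_le_card fun i hi => ?_) h2,
      h1.trans (card_le_card fun j hj => ?_)⟩
    · simp only [mem_filter, mem_univ, true_and] at hi ⊢
      by_contra hc
      push Not at hc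
      apply hi
      funext j
      by_cases hj : j ∈ J
      · have := hc j hj
        simp only [ne_eq, Bool.not_eq_false] at this
        simp [this]
      · simp [hj]
    · simp [hj]

theorem old_iff_sel (z : ℕ → ℕ) (n m : ℕ) (F : ℕ → ℕ → Bool) (k : ℕ) :
    OLD z (fun (i : Fin n) (j : Fin m) => F i j) k ↔ Sel (z m) n m F k := by
  rw [old_iff]
  have hc : ∀ (P : ℕ → Prop) [DecidablePred P],
      (univ.filter fun i : Fin n => P i).card = ((range n).filter P).card := by
    intro P _
    rw [← card_map Fin.valEmbedding]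
    congr 1
    ext i
    simp only [mem_map, mem_filter, mem_univ, true_and, Fin.valEmbedding_apply, mem_range]
    exact ⟨by rintro ⟨a, ha, rfl⟩; exact ⟨a.2, ha⟩, fun h => ⟨⟨i, h.1⟩, h.2, rfl⟩⟩
  constructor
  · rintro ⟨J, h1, h2⟩
    refine ⟨J.map Fin.valEmbedding, fun j hj => ?_, by rwa [card_map], ?_⟩
    · obtain ⟨a, -, rfl⟩ := mem_map.mp hj
      exact mem_range.mpr a.2
    · rw [← hc]
      refine le_trans (card_le_card fun i hi => ?_) h2
      simp only [mem_filter, mem_univ, true_and, mem_map] at hi ⊢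
      obtain ⟨j, ⟨a, ha, rfl⟩, hx⟩ := hi
      exact ⟨a, ha, hx⟩
  · rintro ⟨J, hJ, h1, h2⟩
    refine ⟨univ.filter fun j : Fin m => (j : ℕ) ∈ J, ?_, ?_⟩
    · refine h1.trans (le_of_eq ?_)
      rw [← card_map Fin.valEmbedding]
      congr 1
      ext j
      simp only [mem_map, mem_filter, mem_univ, true_and, Fin.valEmbedding_apply]
      exact ⟨fun h => ⟨⟨j, mem_range.mp (hJ h)⟩, h, rfl⟩, by rintro ⟨a, ha, rfl⟩; exact ha⟩
    · rw [← hc] at h2
      refine le_trans (card_le_card fun i hi => ?_) h2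
      simp only [mem_filter, mem_univ, true_and] at hi ⊢
      obtain ⟨j, hj, hx⟩ := hi
      exact ⟨j, hj, hx⟩

/-- The list of rows. -/
def mat (n m : ℕ) (F : ℕ → ℕ → Bool) : List (List Bool) :=
  (List.range n).map fun i => (List.range m).map (F i)

theorem ofFn_eq_map_range {α : Type} (n : ℕ) (f : ℕ → α) :
    (List.ofFn fun i : Fin n => f i) = (List.range n).map f := by
  apply List.ext_getElem <;> simp

theorem mat_eq (n m : ℕ) (F : ℕ → ℕ → Bool) :
    (List.ofFn fun i : Fin n => List.ofFn fun j : Fin m => F i j) = mat n m F := by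
  rw [mat, ← ofFn_eq_map_range]
  congr 1
  funext i
  exact ofFn_eq_map_range m (F i)

/-- `g` decides the problem on matrices given by functions. -/
def Dec (z : ℕ → ℕ) (g : List (List Bool) × ℕ → Bool) : Prop :=
  ∀ n m F k, 0 < n → k ≤ n → (g (mat n m F, k) = true ↔ Sel (z m) n m F k)

theorem dec_iff (z : ℕ → ℕ) (g : List (List Bool) × ℕ → Bool) :
    (∀ (n m : ℕ) (X : Fin n → Fin m → Bool) (k : ℕ), 0 < n → k ≤ n →
      (g (List.ofFn fun i => List.ofFn (X i), k) = true ↔ OLD z X k)) ↔ Dec z g := by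
  constructor
  · intro h n m F k hn hk
    rw [← mat_eq, ← old_iff_sel]
    exact h n m _ k hn hk
  · intro h n m X k hn hk
    let F : ℕ → ℕ → Bool := fun i j => if h : i < n ∧ j < m then X ⟨i, h.1⟩ ⟨j, h.2⟩ else false
    have hX : X = fun (i : Fin n) (j : Fin m) => F i j := by
      funext i j; simp [F]
    rw [hX, old_iff_sel, mat_eq]
    exact h n m F k hn hk

theorem sel_row (z m j : ℕ) (hj : j ≤ m) : Sel z 1 m (fun _ i => decide (i < j)) 0 ↔ z ≤ j := by
  constructor
  · rintro ⟨J, -, h1, h2⟩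
    rw [Nat.le_zero, card_eq_zero, filter_eq_empty_iff] at h2
    have h3 := h2 (mem_range.mpr Nat.zero_lt_one)
    refine h1.trans ((card_le_card (t := range j) fun i hi => ?_).trans (card_range j).le)
    by_contra hc
    exact h3 ⟨i, hi, by simpa using hc⟩
  · intro h
    refine ⟨range j, range_subset_range.mpr hj, by simpa using h, ?_⟩
    rw [Nat.le_zero, card_eq_zero, filter_eq_empty_iff]
    rintro i - ⟨c, hc, h'⟩
    simp_all

/-- The three vertices of the triple number `t`. -/
def tri (V t : ℕ) : List ℕ := [t % V, t / V % V, t / V / V]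

theorem tri_lt {V t : ℕ} (ht : t < V ^ 3) {v : ℕ} (hv : v ∈ tri V t) : v < V := by
  have hV : 0 < V := Nat.pos_of_ne_zero (by rintro rfl; simp at ht)
  simp only [tri, List.mem_cons, List.not_mem_nil, or_false] at hv
  rcases hv with rfl | rfl | rfl
  · exact Nat.mod_lt _ hV
  · exact Nat.mod_lt _ hV
  · rw [Nat.div_div_eq_div_mul, Nat.div_lt_iff_lt_mul (by positivity)]
    calc t < V ^ 3 := ht
      _ = _ := by ring

/-- A small set of vertices containing many good triples. -/
def Dense (V k : ℕ) (good : ℕ → Bool) : Prop :=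
  ∃ U ⊆ range V, U.card ≤ k ∧
    k ^ 3 ≤ ((range (V ^ 3)).filter fun t => good t = true ∧ ∀ v ∈ tri V t, v ∈ U).card

/-- The matrix used when the quota is not close to the number of issues. -/
def F1 (V k z : ℕ) (good : ℕ → Bool) (v j : ℕ) : Bool :=
  if j < V ^ 3 then good j && !(tri V j).contains v else decide (j < V ^ 3 + (z - k ^ 3))

/-- The matrix used when the quota is close to the number of issues. -/
def F2 (V k w : ℕ) (good : ℕ → Bool) (t j : ℕ) : Bool :=
  if j < V then good t && !(tri V t).contains j else decide (V + (w - k) ≤ j)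

theorem sel_F1 {V k z m : ℕ} (good : ℕ → Bool) (h1 : k ^ 3 ≤ z) (h2 : V ^ 3 + z ≤ m) (h3 : k < V) :
    Sel z V m (F1 V k z good) k ↔ Dense V k good := by
  constructor
  · rintro ⟨J, hJ, hz, hb⟩
    refine ⟨_, filter_subset _ _, hb, ?_⟩
    set U := (range V).filter fun i => ∃ j ∈ J, F1 V k z good i j = false with hU
    obtain ⟨v0, hv0, hv0'⟩ : ∃ v0 ∈ range V, v0 ∉ U :=
      exists_mem_notMem_of_card_lt_card (by rw [card_range]; omega)
    have hall : ∀ j ∈ J, F1 V k z good v0 j = true := by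
      intro j hj
      by_contra hc
      exact hv0' (mem_filter.mpr ⟨hv0, j, hj, by simpa using hc⟩)
    have hsub : J ⊆ ((range (V ^ 3)).filter fun t => good t = true ∧ ∀ v ∈ tri V t, v ∈ U) ∪
        Ico (V ^ 3) (V ^ 3 + (z - k ^ 3)) := by
      intro j hj
      have := hall j hj
      unfold F1 at this
      rw [mem_union]
      split_ifs at this with hlt
      · left
        rw [Bool.and_eq_true] at this
        refine mem_filter.mpr ⟨mem_range.mpr hlt, this.1, fun v hv => ?_⟩
        exact mem_filter.mpr ⟨mem_range.mpr (tri_lt hlt hv), j, hj, by simp [F1, hlt, hv]⟩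
      · right
        rw [mem_Ico]
        exact ⟨by omega, by simpa using this⟩
    have := (card_le_card hsub).trans (card_union_le _ _)
    rw [Nat.card_Ico] at this
    omega
  · rintro ⟨U, hU, hk, hT⟩
    set T := (range (V ^ 3)).filter fun t => good t = true ∧ ∀ v ∈ tri V t, v ∈ U with hTd
    refine ⟨T ∪ Ico (V ^ 3) (V ^ 3 + (z - k ^ 3)), ?_, ?_, le_trans (card_le_card ?_) hk⟩
    · intro j hj
      rw [mem_union, mem_Ico, hTd, mem_filter, mem_range] at hj
      rw [mem_range]; omega
    · rw [card_union_of_disjoint, Nat.card_Ico]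
      · omega
      · rw [disjoint_left]
        intro j hj hj'
        rw [hTd, mem_filter, mem_range] at hj
        rw [mem_Ico] at hj'
        omega
    · intro v hv
      obtain ⟨-, j, hj, hF⟩ := mem_filter.mp hv
      rw [mem_union, mem_Ico, hTd, mem_filter, mem_range] at hj
      rcases hj with ⟨hj1, hj2, hj3⟩ | ⟨hj1, hj2⟩
      · apply hj3
        simpa [F1, hj1, hj2] using hF
      · simp [F1, not_lt.mpr hj1, hj2] at hF

theorem sel_F2 {V k z w : ℕ} (good : ℕ → Bool) (h0 : 0 < k) (h1 : k ≤ w) (h2 : V ≤ z) (h3 : k < V) :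
    Sel z (V ^ 3) (z + w) (F2 V k w good) (V ^ 3 - k ^ 3) ↔ Dense V k good := by
  have hkV : k ^ 3 ≤ V ^ 3 := Nat.pow_le_pow_left h3.le 3
  constructor
  · rintro ⟨J, hJ, hz, hb⟩
    have hS := card_filter_add_card_filter_not (s := range (V ^ 3))
      (fun i => ∃ j ∈ J, F2 V k w good i j = false)
    rw [card_range] at hS
    set S := (range (V ^ 3)).filter fun i => ¬ ∃ j ∈ J, F2 V k w good i j = false with hSd
    have hSc : k ^ 3 ≤ S.card := by omega
    have hall : ∀ t ∈ S, ∀ j ∈ J, F2 V k w good t j = true := by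
      intro t ht j hj
      by_contra hc
      exact (mem_filter.mp ht).2 ⟨j, hj, by simpa using hc⟩
    obtain ⟨t0, ht0⟩ : S.Nonempty := card_pos.mp (lt_of_lt_of_le (by positivity) hSc)
    have hsub : J ⊆ (range V ∩ J) ∪ Ico (V + (w - k)) (z + w) := by
      intro j hj
      rw [mem_union, mem_inter, mem_range, mem_Ico]
      by_cases hlt : j < V
      · exact Or.inl ⟨hlt, hj⟩
      · right
        exact ⟨by simpa [F2, hlt] using hall t0 ht0 j hj, mem_range.mp (hJ hj)⟩
    have hc := (card_le_card hsub).trans (card_union_le _ _)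
    rw [Nat.card_Ico] at hc
    have hc2 := card_sdiff_add_card_inter (range V) J
    rw [card_range] at hc2
    obtain ⟨j0, hj0⟩ : (range V ∩ J).Nonempty := card_pos.mp (by omega)
    rw [mem_inter, mem_range] at hj0
    refine ⟨range V \ J, sdiff_subset, by omega, hSc.trans (card_le_card fun t ht => ?_)⟩
    have ht' := mem_range.mp (mem_filter.mp ht).1
    refine mem_filter.mpr ⟨mem_range.mpr ht', ?_, fun v hv => ?_⟩
    · have := hall t ht j0 hj0.2
      simp only [F2, hj0.1, if_true, Bool.and_eq_true] at this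
      exact this.1
    · have hvV := tri_lt ht' hv
      refine mem_sdiff.mpr ⟨mem_range.mpr hvV, fun hvJ => ?_⟩
      have := hall t ht v hvJ
      simp [F2, hvV, hv] at this
  · rintro ⟨U, hU, hk, hT⟩
    set T := (range (V ^ 3)).filter fun t => good t = true ∧ ∀ v ∈ tri V t, v ∈ U with hTd
    refine ⟨range (z + w) \ (U ∪ Ico V (V + (w - k))), sdiff_subset, ?_, ?_⟩
    · have h4 := le_card_sdiff (U ∪ Ico V (V + (w - k))) (range (z + w))
      have h5 := card_union_le U (Ico V (V + (w - k)))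
      rw [Nat.card_Ico] at h5
      rw [card_range] at h4
      omega
    · have h4 : (range (V ^ 3) \ T).card = V ^ 3 - T.card := by
        rw [card_sdiff_of_subset (filter_subset _ _), card_range]
      refine le_trans (card_le_card (t := range (V ^ 3) \ T) fun t ht => ?_) (by omega)
      obtain ⟨ht1, j, hj, hF⟩ := mem_filter.mp ht
      refine mem_sdiff.mpr ⟨ht1, fun htT => ?_⟩
      obtain ⟨-, hg, hv⟩ := mem_filter.mp htT
      rw [mem_sdiff, mem_union, mem_Ico] at hj
      by_cases hlt : j < V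
      · have : j ∈ tri V t := by simpa [F2, hlt, hg] using hF
        exact hj.2 (Or.inl (hv j this))
      · have : j < V + (w - k) := by simpa [F2, hlt] using hF
        exact hj.2 (Or.inr ⟨by omega, this⟩)

theorem tri_enc {V a b c : ℕ} (ha : a < V) (hb : b < V) : tri V (a + V * (b + V * c)) = [a, b, c] := by
  have hV : 0 < V := by omega
  have h1 : (a + V * (b + V * c)) / V = b + V * c := by
    rw [Nat.add_mul_div_left _ _ hV, Nat.div_eq_of_lt ha, zero_add]
  have h2 : (b + V * c) / V = c := by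
    rw [Nat.add_mul_div_left _ _ hV, Nat.div_eq_of_lt hb, zero_add]
  rw [tri, h1, h2, Nat.add_mul_mod_self_left, Nat.add_mul_mod_self_left, Nat.mod_eq_of_lt ha,
    Nat.mod_eq_of_lt hb]

theorem enc_lt {V a b c : ℕ} (ha : a < V) (hb : b < V) (hc : c < V) :
    a + V * (b + V * c) < V ^ 3 := by
  have h1 : b + V * c + 1 ≤ V * V := by nlinarith
  nlinarith

theorem dense_iff {V k : ℕ} (G : List ℕ → Bool) :
    Dense V k (fun t => G (tri V t)) ↔
      ∃ U ⊆ range V, U.card = k ∧ ∀ a ∈ U, ∀ b ∈ U, ∀ c ∈ U, G [a, b, c] = true := by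
  constructor
  · rintro ⟨U, hU, hk, hT⟩
    set T := (range (V ^ 3)).filter fun t => G (tri V t) = true ∧ ∀ v ∈ tri V t, v ∈ U with hTd
    let f : ℕ → ℕ × ℕ × ℕ := fun t => (t % V, t / V % V, t / V / V)
    have hinj : Set.InjOn f T := by
      intro t _ t' _ h
      simp only [f, Prod.mk.injEq] at h
      obtain ⟨e1, e2, e3⟩ := h
      rw [← Nat.mod_add_div t V, ← Nat.mod_add_div t' V, ← Nat.mod_add_div (t / V) V,
        ← Nat.mod_add_div (t' / V) V, e1, e2, e3]
    have hmaps : Set.MapsTo f T (U ×ˢ U ×ˢ U : Finset _) := by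
      intro t ht
      have := (mem_filter.mp ht).2.2
      simp only [coe_product, Set.mem_prod, mem_coe, f]
      exact ⟨this _ (by simp [tri]), this _ (by simp [tri]), this _ (by simp [tri])⟩
    have hc : (U ×ˢ U ×ˢ U).card = U.card ^ 3 := by rw [card_product, card_product]; ring
    have h1 := card_le_card_of_injOn f hmaps hinj
    have h2 : U.card ^ 3 ≤ k ^ 3 := Nat.pow_le_pow_left hk 3
    have h3 : k ≤ U.card := le_of_pow_le_pow_left₀ (n := 3) (by norm_num) (Nat.zero_le _) (by omega)
    refine ⟨U, hU, le_antisymm hk h3, fun a ha b hb c hc' => ?_⟩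
    obtain ⟨t, ht, hf⟩ := surjOn_of_injOn_of_card_le f hmaps hinj (by omega)
      (show (a, b, c) ∈ ((U ×ˢ U ×ˢ U : Finset _) : Set _) by simp [ha, hb, hc'])
    simp only [f, Prod.mk.injEq] at hf
    have := (mem_filter.mp ht).2.1
    rwa [tri, hf.1, hf.2.1, hf.2.2] at this
  · rintro ⟨U, hU, hk, hG⟩
    refine ⟨U, hU, hk.le, ?_⟩
    have hc : (U ×ˢ U ×ˢ U).card = k ^ 3 := by rw [card_product, card_product, hk]; ring
    rw [← hc]
    have hlt : ∀ a ∈ U, a < V := fun a ha => mem_range.mp (hU ha)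
    refine card_le_card_of_injOn (fun p => p.1 + V * (p.2.1 + V * p.2.2)) ?_ ?_
    · rintro ⟨a, b, c⟩ h
      simp only [coe_product, Set.mem_prod, mem_coe] at h
      obtain ⟨ha, hb, hc⟩ := h
      refine mem_filter.mpr ⟨mem_range.mpr (enc_lt (hlt a ha) (hlt b hb) (hlt c hc)), ?_⟩
      beta_reduce
      rw [tri_enc (hlt a ha) (hlt b hb)]
      exact ⟨hG a ha b hb c hc, by simp [ha, hb, hc]⟩
    · rintro ⟨a, b, c⟩ h ⟨a', b', c'⟩ h' e
      simp only [coe_product, Set.mem_prod, mem_coe] at h h'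
      have e' := congrArg (tri V) e
      rw [tri_enc (hlt a h.1) (hlt b h.2.1), tri_enc (hlt a' h'.1) (hlt b' h'.2.1)] at e'
      simpa using e'

/-- The list of variables. -/
def vars (φ : List (List (ℕ × Bool))) : List ℕ := (φ.flatten.map Prod.fst).dedup

theorem length_vars (φ : List (List (ℕ × Bool))) : (vars φ).length = nvars φ := by
  rw [nvars, List.card_toFinset]; rfl

theorem mem_vars {φ : List (List (ℕ × Bool))} {C : List (ℕ × Bool)} (hC : C ∈ φ) {l : ℕ × Bool}
    (hl : l ∈ C) : l.1 ∈ vars φ :=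
  List.mem_dedup.mpr (List.mem_map_of_mem (List.mem_flatten.mpr ⟨C, hC, hl⟩))

/-- A list of partial assignments is consistent and satisfies the clauses it decides. -/
def good (φ : List (List (ℕ × Bool))) (s B : ℕ) (T : List ℕ) : Bool :=
  (T.all fun a => T.all fun b => a / B != b / B || a == b) &&
  φ.all fun C => !(C.all fun l => T.any fun v => v / B == (vars φ).idxOf l.1 / s) ||
    C.any fun l => T.any fun v => v / B == (vars φ).idxOf l.1 / s &&
      (v % B).testBit ((vars φ).idxOf l.1 % s) == l.2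

theorem good_iff (φ : List (List (ℕ × Bool))) (s B : ℕ) (T : List ℕ) : good φ s B T = true ↔
    (∀ a ∈ T, ∀ b ∈ T, a / B = b / B → a = b) ∧
    ∀ C ∈ φ, (∀ l ∈ C, ∃ v ∈ T, v / B = (vars φ).idxOf l.1 / s) →
      ∃ l ∈ C, ∃ v ∈ T, v / B = (vars φ).idxOf l.1 / s ∧
        (v % B).testBit ((vars φ).idxOf l.1 % s) = l.2 := by
  simp only [good, Bool.and_eq_true, List.all_eq_true, Bool.or_eq_true, bne_iff_ne, ne_eq,
    beq_iff_eq, Bool.not_eq_true', List.any_eq_true, ← Bool.not_eq_true, imp_iff_not_or]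

theorem sat_iff (φ : List (List (ℕ × Bool))) (h3 : ∀ C ∈ φ, C.length ≤ 3) {k s : ℕ} (hk : 0 < k)
    (hs : nvars φ < k * s) :
    (∃ a : ℕ → Bool, ∀ C ∈ φ, ∃ l ∈ C, a l.1 = l.2) ↔
      Dense (k * 2 ^ s) k (fun t => good φ s (2 ^ s) (tri (k * 2 ^ s) t)) := by
  rw [dense_iff]
  have hs0 : 0 < s := Nat.pos_of_ne_zero (by rintro rfl; simp at hs)
  have hB : 0 < 2 ^ s := by positivity
  have hidx : ∀ C ∈ φ, ∀ l ∈ C, (vars φ).idxOf l.1 / s < k := by
    intro C hC l hl
    have := List.idxOf_lt_length_of_mem (mem_vars hC hl)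
    rw [length_vars] at this
    rw [Nat.div_lt_iff_lt_mul hs0]; omega
  constructor
  · rintro ⟨a, ha⟩
    let α : ℕ → ℕ := fun g => Nat.ofBits fun j : Fin s => a ((vars φ).getD (g * s + j) 0)
    have hα : ∀ g, α g < 2 ^ s := fun g => Nat.ofBits_lt_two_pow _
    let u : ℕ → ℕ := fun g => α g + 2 ^ s * g
    have hdiv : ∀ g, u g / 2 ^ s = g := fun g => by
      simp only [u]; rw [Nat.add_mul_div_left _ _ hB, Nat.div_eq_of_lt (hα g), zero_add]
    have hmod : ∀ g, u g % 2 ^ s = α g := fun g => by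
      simp only [u]; rw [Nat.add_mul_mod_self_left, Nat.mod_eq_of_lt (hα g)]
    have hinj : Function.Injective u := fun g g' h => by rw [← hdiv g, h, hdiv]
    refine ⟨(range k).image u, fun v hv => ?_, by rw [card_image_of_injective _ hinj, card_range],
      fun v1 h1 v2 h2 v3 h3 => ?_⟩
    · obtain ⟨g, hg, rfl⟩ := mem_image.mp hv
      have := hα g
      have hg' := mem_range.mp hg
      simp only [u, mem_range]
      nlinarith
    · have hT : ∀ v ∈ [v1, v2, v3], v = u (v / 2 ^ s) := by
        intro v hv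
        have : v ∈ (range k).image u := by
          simp only [List.mem_cons, List.not_mem_nil, or_false] at hv
          rcases hv with rfl | rfl | rfl <;> assumption
        obtain ⟨g, -, rfl⟩ := mem_image.mp this
        rw [hdiv]
      rw [good_iff]
      refine ⟨fun x hx y hy h => by rw [hT x hx, hT y hy, h], fun C hC hcov => ?_⟩
      obtain ⟨l, hl, hal⟩ := ha C hC
      obtain ⟨v, hv, hvl⟩ := hcov l hl
      refine ⟨l, hl, v, hv, hvl, ?_⟩
      rw [hT v hv, hmod, hvl]
      simp only [α]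
      rw [Nat.testBit_ofBits_lt _ _ (Nat.mod_lt _ hs0), ← hal]
      congr 1
      rw [Nat.div_add_mod', List.getD_eq_getElem?_getD, List.getElem?_idxOf (mem_vars hC hl)]
      rfl
  · rintro ⟨U, hU, hUk, hG⟩
    have hinj : Set.InjOn (fun v => v / 2 ^ s) U := by
      intro x hx y hy h
      exact ((good_iff φ s _ _).mp (hG x hx y hy y hy)).1 x (by simp) y (by simp) h
    have hmaps : Set.MapsTo (fun v => v / 2 ^ s) U (range k) := by
      intro v hv
      have := mem_range.mp (hU hv)
      simp only [coe_range, Set.mem_Iio]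
      rwa [Nat.div_lt_iff_lt_mul hB]
    have hsurj := surjOn_of_injOn_of_card_le _ hmaps hinj (by rw [card_range, hUk])
    have hex : ∀ g, ∃ v, g < k → v ∈ U ∧ v / 2 ^ s = g := by
      intro g
      by_cases hg : g < k
      · obtain ⟨v, hv, hvg⟩ := hsurj (show g ∈ ((range k : Finset ℕ) : Set ℕ) by simpa using hg)
        exact ⟨v, fun _ => ⟨hv, hvg⟩⟩
      · exact ⟨0, fun h => absurd h hg⟩
    choose u hu using hex
    refine ⟨fun x => (u ((vars φ).idxOf x / s) % 2 ^ s).testBit ((vars φ).idxOf x % s),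
      fun C hC => ?_⟩
    have hcov : ∃ v1 ∈ U, ∃ v2 ∈ U, ∃ v3 ∈ U, ∀ l ∈ C, ∃ v ∈ [v1, v2, v3],
        v / 2 ^ s = (vars φ).idxOf l.1 / s := by
      have h0 := (hu 0 hk).1
      have hl := h3 C hC
      have hi := fun l hl => hu _ (hidx C hC l hl)
      match C, hl, hi with
      | [], _, _ => exact ⟨_, h0, _, h0, _, h0, by simp⟩
      | [l1], _, hi =>
        exact ⟨_, (hi l1 (by simp)).1, _, h0, _, h0, by simp [(hi l1 (by simp)).2]⟩
      | [l1, l2], _, hi =>
        exact ⟨_, (hi l1 (by simp)).1, _, (hi l2 (by simp)).1, _, h0,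
          by simp [(hi l1 (by simp)).2, (hi l2 (by simp)).2]⟩
      | [l1, l2, l3], _, hi =>
        exact ⟨_, (hi l1 (by simp)).1, _, (hi l2 (by simp)).1, _, (hi l3 (by simp)).1,
          by simp [(hi l1 (by simp)).2, (hi l2 (by simp)).2, (hi l3 (by simp)).2]⟩
      | _ :: _ :: _ :: _ :: _, hl, _ => simp only [List.length_cons] at hl; omega
    obtain ⟨v1, h1, v2, h2, v3, h3', hcov⟩ := hcov
    obtain ⟨l, hl, v, hv, hvl, hb⟩ := ((good_iff φ s _ _).mp (hG v1 h1 v2 h2 v3 h3')).2 C hC hcov
    refine ⟨l, hl, ?_⟩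
    have hvU : v ∈ U := by
      simp only [List.mem_cons, List.not_mem_nil, or_false] at hv
      rcases hv with rfl | rfl | rfl <;> assumption
    have hu' := hu _ (hidx C hC l hl)
    have : u ((vars φ).idxOf l.1 / s) = v := hinj hu'.1 hvU (hu'.2.trans hvl.symm)
    simp only [this]
    exact hb

end Pool.Agent.Lib.MP_8eff38_lc
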