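import Mathlib
import Pool.Agent.Shared.ExpTime
import Pool.Agent.Lib.MP_8eff38_lc.Comb

set_option autoImplicit false

namespace Pool.Agent.Lib.MP_8eff38_lc

open Pool.Agent.Shared.PolyTime

/-- Formulas. -/
abbrev CNF := List (List (ℕ × Bool))

section
variable {α : Type} [N487b59b3 α]

@[fun_prop] theorem testBit_pt {a j : α → ℕ} (ha : PT a) (hj : PT j) :
    PT (fun x => (a x).testBit (j x)) := by
  have : PT (fun x => (a x).bits.getD (j x) false) := by fun_prop
  exact this.of_eq fun x => by rw [Nat.testBit_eq_inth]; rfl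

/-- The list of rows, the indices being taken from `L`. -/
def matL (L : List ℕ) (n m : ℕ) (F : ℕ → ℕ → Bool) : List (List Bool) :=
  (L.take n).map fun i => (L.take m).map (F i)

theorem matL_range {M n m : ℕ} (hn : n ≤ M) (hm : m ≤ M) (F : ℕ → ℕ → Bool) :
    matL (List.range M) n m F = mat n m F := by
  rw [matL, mat, List.take_range, List.take_range, min_eq_left hn, min_eq_left hm]

theorem matL_pt {L : α → List ℕ} {n m : α → ℕ} {F : α → ℕ → ℕ → Bool} (hL : PT L) (hn : PT n)
    (hm : PT m) (hF : PT (fun p : (α × ℕ) × ℕ => F p.1.1 p.1.2 p.2)) :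
    PT (fun x => matL (L x) (n x) (m x) (F x)) := by
  unfold matL
  exact PT.map (h := fun x i => ((L x).take (m x)).map (F x i)) (by fun_prop)
    (PT.map (h := fun (p : α × ℕ) j => F p.1 p.2 j) (by fun_prop) hF)

@[fun_prop] theorem vars_pt {φ : α → CNF} (h : PT φ) : PT (fun x => vars (φ x)) := by
  unfold vars; fun_prop

@[fun_prop] theorem tri_pt {V t : α → ℕ} (hV : PT V) (ht : PT t) : PT (fun x => tri (V x) (t x)) := by
  unfold tri; fun_prop

@[fun_prop] theorem good_pt {φ : α → CNF} {s B : α → ℕ} {T : α → List ℕ} (h : PT φ) (hs : PT s)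
    (hB : PT B) (hT : PT T) : PT (fun x => good (φ x) (s x) (B x) (T x)) := by
  unfold good; fun_prop

/-- The quota, computed by queries to `g`. -/
def zc (g : List (List Bool) × ℕ → Bool) (L : List ℕ) (m : ℕ) : ℕ :=
  (L.take m).countP fun j => !g (matL L 1 m (fun _ i => decide (i < j)), 0)

theorem zc_pt {g : List (List Bool) × ℕ → Bool} (hg : PT g) {L : α → List ℕ} {m : α → ℕ}
    (hL : PT L) (hm : PT m) : PT (fun x => zc g (L x) (m x)) := by
  unfold zc
  refine PT.countP (by fun_prop) (PT.not (hg.comp' (PT.pair ?_ (PT.const 0))))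
  exact matL_pt (F := fun (p : α × ℕ) _ i => decide (i < p.2)) (by fun_prop) (by fun_prop)
    (by fun_prop) (by fun_prop)

theorem zc_eq {z : ℕ → ℕ} {g : List (List Bool) × ℕ → Bool} (hg : Dec z g) {M m : ℕ}
    (hz : z m ≤ m) (hM : 1 ≤ M) (hm : m ≤ M) : zc g (List.range M) m = z m := by
  rw [zc, List.take_range, min_eq_left hm]
  have : ∀ j ∈ List.range m, (!g (matL (List.range M) 1 m (fun _ i => decide (i < j)), 0)) = true ↔
      decide (j < z m) = true := by
    intro j hj
    have hj' := List.mem_range.mp hj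
    rw [matL_range hM hm, Bool.not_eq_true', ← Bool.not_eq_true,
      hg 1 m _ 0 Nat.zero_lt_one (Nat.zero_le _), sel_row _ _ _ hj'.le]
    simp
  rw [List.countP_congr this]
  obtain ⟨d, hd⟩ := Nat.exists_eq_add_of_le hz
  generalize z m = y at hd
  subst hd
  rw [List.range_add, List.countP_append, List.countP_eq_length.mpr, List.countP_eq_zero.mpr]
  · simp
  · simp
  · simp

/-- The reduction for a given number of issues. -/
def red (g : List (List Bool) × ℕ → Bool) (φ : CNF) (k s B : ℕ) (L : List ℕ) (m z : ℕ) : Bool :=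
  if (k * B) ^ 3 + z ≤ m then
    g (matL L (k * B) m (F1 (k * B) k z (fun t => good φ s B (tri (k * B) t))), k)
  else
    g (matL L ((k * B) ^ 3) m (F2 (k * B) k (m - z) (fun t => good φ s B (tri (k * B) t))),
      (k * B) ^ 3 - k ^ 3)

theorem red_pt {g : List (List Bool) × ℕ → Bool} (hg : PT g) {φ : α → CNF} {k s B m z : α → ℕ}
    {L : α → List ℕ} (hφ : PT φ) (hk : PT k) (hs : PT s) (hB : PT B) (hL : PT L) (hm : PT m)
    (hz : PT z) : PT (fun x => red g (φ x) (k x) (s x) (B x) (L x) (m x) (z x)) := by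
  unfold red
  refine PT.ite (by fun_prop) (hg.comp' (PT.pair ?_ hk)) (hg.comp' (PT.pair ?_ (by fun_prop)))
  · refine matL_pt hL (by fun_prop) hm ?_
    unfold F1; fun_prop
  · refine matL_pt hL (by fun_prop) hm ?_
    unfold F2; fun_prop

theorem red_iff {z : ℕ → ℕ} {g : List (List Bool) × ℕ → Bool} (hg : Dec z g) (φ : CNF)
    (h3 : ∀ C ∈ φ, C.length ≤ 3) {k s M m : ℕ} (hk : 0 < k) (hs : nvars φ < k * s)
    (h1 : 2 * (k * 2 ^ s) ^ 3 ≤ m) (h2 : m ≤ M) (h4 : k ^ 3 ≤ z m) (h5 : k ^ 3 ≤ m - z m) :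
    red g φ k s (2 ^ s) (List.range M) m (z m) = true ↔
      ∃ a : ℕ → Bool, ∀ C ∈ φ, ∃ l ∈ C, a l.1 = l.2 := by
  rw [sat_iff φ h3 hk hs]
  have hs0 : 0 < s := Nat.pos_of_ne_zero (by rintro rfl; simp at hs)
  have hB : 2 ≤ 2 ^ s := Nat.le_self_pow hs0.ne' 2
  have hkV : k < k * 2 ^ s := by nlinarith
  unfold red
  generalize (fun t => good φ s (2 ^ s) (tri (k * 2 ^ s) t)) = G
  generalize k * 2 ^ s = V at *
  have hV : V ≤ V ^ 3 := Nat.le_self_pow (by norm_num) V
  have hk3 : k ≤ k ^ 3 := Nat.le_self_pow (by norm_num) k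
  split_ifs with h
  · rw [matL_range (by omega) h2, hg _ _ _ _ (by omega) hkV.le, sel_F1 G h4 h hkV]
  · rw [matL_range (by omega) h2, hg _ _ _ _ (by omega) (Nat.sub_le _ _),
      ← sel_F2 (z := z m) (w := m - z m) G hk (by omega) (by omega) hkV,
      show z m + (m - z m) = m by omega]

/-- The test on the number of issues. -/
def okm (k B m z : ℕ) : Bool :=
  decide (2 * (k * B) ^ 3 ≤ m) && decide (k ^ 3 ≤ z) && decide (k ^ 3 ≤ m - z)

/-- Search for a number of issues, then reduce. -/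
def algC (g : List (List Bool) × ℕ → Bool) (φ : CNF) (k s B : ℕ) (L : List ℕ) : Bool :=
  (φ.all fun C => decide (C.length ≤ 3)) &&
    (L.find? fun m => okm k B m (zc g L m)).elim false fun m => red g φ k s B L m (zc g L m)

theorem algC_pt {g : List (List Bool) × ℕ → Bool} (hg : PT g) {φ : α → CNF} {k s B : α → ℕ}
    {L : α → List ℕ} (hφ : PT φ) (hk : PT k) (hs : PT s) (hB : PT B) (hL : PT L) :
    PT (fun x => algC g (φ x) (k x) (s x) (B x) (L x)) := by
  unfold algC
  have hz : PT (fun p : α × ℕ => zc g (L p.1) p.2) := zc_pt hg (by fun_prop) (by fun_prop)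
  refine PT.and (by fun_prop) (PT.elim (PT.find? hL ?_) (PT.const _) ?_)
  · have : ∀ z' : α × ℕ → ℕ, PT z' → PT (fun p : α × ℕ => okm (k p.1) (B p.1) p.2 (z' p)) := by
      intro z' hz'
      unfold okm; fun_prop
    exact this _ hz
  · exact red_pt hg (by fun_prop) (by fun_prop) (by fun_prop) (by fun_prop) (by fun_prop)
      (by fun_prop) hz

theorem algC_iff {z : ℕ → ℕ} (hz : ∀ m, z m ≤ m) {g : List (List Bool) × ℕ → Bool} (hg : Dec z g)
    (φ : CNF) {k s M : ℕ} (hk : 0 < k) (hs : nvars φ < k * s)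
    (hm : ∃ m, 2 * (k * 2 ^ s) ^ 3 ≤ m ∧ m < M ∧ k ^ 3 ≤ min (z m) (m - z m)) :
    algC g φ k s (2 ^ s) (List.range M) = true ↔ Sat3 φ := by
  obtain ⟨m, h1, h2, h4⟩ := hm
  have hzc : ∀ m' ∈ List.range M, zc g (List.range M) m' = z m' := fun m' h =>
    zc_eq hg (hz m') (by omega) (List.mem_range.mp h).le
  rw [algC, Sat3, Bool.and_eq_true, List.all_eq_true]
  simp only [decide_eq_true_eq]
  refine and_congr_right fun h3 => ?_
  cases hf : (List.range M).find? fun m => okm k (2 ^ s) m (zc g (List.range M) m) with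
  | none =>
    have := List.find?_eq_none.mp hf m (List.mem_range.mpr h2)
    rw [hzc m (List.mem_range.mpr h2)] at this
    exact absurd (by simpa [okm, h1] using h4) this
  | some m' =>
    have h5 := List.find?_some hf
    have h6 := List.mem_of_find?_eq_some hf
    rw [hzc m' h6] at h5
    simp only [okm, Bool.and_eq_true, decide_eq_true_eq] at h5
    rw [Option.elim_some, hzc m' h6]
    exact red_iff hg φ h3 hk hs h5.1.1 (List.mem_range.mp h6).le h5.1.2 h5.2

end

/-- The algorithm on a padded input. -/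
def alg (g : List (List Bool) × ℕ → Bool) (C : ℕ) (p : (CNF × List Bool × ℕ) × List Bool) : Bool :=
  algC g p.1.1 p.1.2.1.length p.1.2.2 p.2.length
    (List.range ((2 * (p.1.2.1.length * p.2.length) ^ 3) ^ C + 1))

theorem alg_pt {g : List (List Bool) × ℕ → Bool} (hg : PT g) (C : ℕ) : PT (alg g C) := by
  unfold alg
  exact algC_pt hg (by fun_prop) (by fun_prop) (by fun_prop) (by fun_prop) (by fun_prop)

/-- The core: a polynomial time algorithm gives fast algorithms for satisfiability that are correct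
whenever the quota is far from both ends somewhere in a window. -/
theorem core {z : ℕ → ℕ} (hz : ∀ m, z m ≤ m) (h : InP z) (C : ℕ) (δ : ℝ) (hδ : 0 < δ) :
    ∃ k, 0 < k ∧ ∀ c, 0 < c → ∃ g, RunsIn δ g ∧ ∀ φ,
      (∃ m, 2 * (k * 2 ^ (nvars φ / k + c)) ^ 3 ≤ m ∧
        m ≤ (2 * (k * 2 ^ (nvars φ / k + c)) ^ 3) ^ C ∧ k ^ 3 ≤ min (z m) (m - z m)) →
      (g φ = true ↔ Sat3 φ) := by
  obtain ⟨g, hg, hd⟩ := h
  rw [dec_iff] at hd
  obtain ⟨k0, hk0⟩ := PT.exp_tm2 (α := CNF) (alg_pt (PT.ofIsPolyTime hg) C) δ hδ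
  refine ⟨k0 + 1, Nat.succ_pos _, fun c hc => ?_⟩
  generalize hk : k0 + 1 = k
  have hkpos : 0 < k := by omega
  refine ⟨_, hk0 k (by omega)
    (fun φ => (φ, List.replicate k true, (vars φ).length / k + c))
    (fun φ => (vars φ).length / k + c) nvars c (by fun_prop) (by fun_prop) ?_
    (fun φ => by rw [length_vars]), fun φ hm => ?_⟩
  · exact (PB.add (PB.length (vars_pt PT.id')) (PB.const c)).mono fun φ =>
      Nat.add_le_add_right (Nat.div_le_self _ _) _
  · simp only [alg, List.length_replicate, length_vars]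
    obtain ⟨m, h1, h2, h3⟩ := hm
    refine algC_iff hz hd φ hkpos ?_ ⟨m, h1, by omega, h3⟩
    have := Nat.lt_mul_div_succ (nvars φ) hkpos
    nlinarith

end Pool.Agent.Lib.MP_8eff38_lc
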