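import Mathlib
import Pool.Agent.Lib.MP_8eff38_lc.Alg

set_option autoImplicit false

namespace Pool.Agent.Lib.MP_8eff38_lc

open Pool.Agent.Shared.PolyTime

/-- All lists of length at most `c` with entries in `L`. -/
def lists : ℕ → List ℕ → List (List ℕ)
  | 0, _ => [[]]
  | c + 1, L => [] :: L.flatMap fun a => (lists c L).map fun S => a :: S

theorem mem_lists (L : List ℕ) : ∀ (c : ℕ) (S : List ℕ), S.length ≤ c → (∀ a ∈ S, a ∈ L) →
    S ∈ lists c L
  | 0, S, h, _ => by simpa [lists] using h
  | c + 1, [], _, _ => by simp [lists]
  | c + 1, a :: S, h, hS => by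
    simp only [lists, List.mem_cons, List.mem_flatMap, List.mem_map]
    exact Or.inr ⟨a, hS a (by simp), S, mem_lists L c S (by simpa using h)
      (fun b hb => hS b (by simp [hb])), rfl⟩

theorem lists_pt (c : ℕ) : PT (lists c) := by
  induction c with
  | zero => exact PT.const [[]]
  | succ c ih =>
    show PT (fun L : List ℕ => [] :: L.flatMap fun a => (lists c L).map fun S => a :: S)
    fun_prop

/-- The test for a set of columns. -/
def test (R : List (List Bool)) (k m z : ℕ) (P : ℕ → Bool) : Bool :=
  decide (z ≤ (List.range m).countP P) &&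
    decide ((R.countP fun r => (List.range m).any fun j => P j && !r.getD j false) ≤ k)

theorem countP_range (n : ℕ) (P : ℕ → Bool) :
    (List.range n).countP P = ((Finset.range n).filter fun i => P i = true).card := by
  induction n with
  | zero => rfl
  | succ n ih =>
    rw [List.range_succ, List.countP_append, ih, Finset.range_add_one, Finset.filter_insert]
    by_cases h : P n = true <;> simp [h]

theorem test_iff (n m k z : ℕ) (F : ℕ → ℕ → Bool) (P : ℕ → Bool) :
    test (mat n m F) k m z P = true ↔
      z ≤ ((Finset.range m).filter fun j => P j = true).card ∧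
      ((Finset.range n).filter fun i => ∃ j ∈ (Finset.range m).filter fun j => P j = true,
        F i j = false).card ≤ k := by
  rw [test, Bool.and_eq_true, decide_eq_true_eq, decide_eq_true_eq, countP_range, mat,
    List.countP_map, countP_range]
  refine and_congr_right fun _ => iff_of_eq (congrArg (· ≤ k) (congrArg _ ?_))
  refine Finset.filter_congr fun i _ => ?_
  simp only [Function.comp, List.any_eq_true, List.mem_range, Bool.and_eq_true, Bool.not_eq_true',
    Finset.mem_filter, Finset.mem_range]
  refine exists_congr fun j => ?_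
  constructor
  · rintro ⟨h1, h2, h3⟩
    exact ⟨⟨h1, h2⟩, by simpa [h1] using h3⟩
  · rintro ⟨⟨h1, h2⟩, h3⟩
    exact ⟨h1, h2, by simpa [h1] using h3⟩

/-- The algorithm for a bounded distance to the ends. -/
def easy (c : ℕ) (R : List (List Bool)) (k m z : ℕ) : Bool :=
  (lists c (List.range m)).any fun S =>
    test R k m z (fun j => S.contains j) || test R k m z (fun j => !S.contains j)

theorem easy_iff {c n m k z : ℕ} (hc : min z (m - z) ≤ c) (F : ℕ → ℕ → Bool) :
    easy c (mat n m F) k m z = true ↔ Sel z n m F k := by
  simp only [easy, List.any_eq_true, Bool.or_eq_true, test_iff]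
  constructor
  · rintro ⟨S, -, h | h⟩ <;> exact ⟨_, Finset.filter_subset _ _, h⟩
  · rintro ⟨J, hJ, h1, h2⟩
    obtain ⟨J', hJ', hc'⟩ := Finset.exists_subset_card_eq h1
    have h3 : ((Finset.range n).filter fun i => ∃ j ∈ J', F i j = false).card ≤ k :=
      le_trans (Finset.card_le_card fun i hi => by
        obtain ⟨hi, j, hj, h⟩ := Finset.mem_filter.mp hi
        exact Finset.mem_filter.mpr ⟨hi, j, hJ' hj, h⟩) h2
    have hsub := hJ'.trans hJ
    rcases min_le_iff.mp hc with h | h
    · refine ⟨J'.toList, mem_lists _ _ _ (by rw [Finset.length_toList]; omega)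
        (fun a ha => by simpa using hsub (Finset.mem_toList.mp ha)), Or.inl ?_⟩
      have : ((Finset.range m).filter fun j => J'.toList.contains j = true) = J' := by
        ext j
        simp only [Finset.mem_filter, List.contains_iff_mem, Finset.mem_toList]
        exact ⟨fun h => h.2, fun h => ⟨hsub h, h⟩⟩
      rw [this]
      exact ⟨hc'.ge, h3⟩
    · refine ⟨(Finset.range m \ J').toList, mem_lists _ _ _ ?_
        (fun a ha => by simpa using (Finset.mem_sdiff.mp (Finset.mem_toList.mp ha)).1), Or.inr ?_⟩
      · rw [Finset.length_toList, Finset.card_sdiff_of_subset hsub, Finset.card_range]; omega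
      · have : ((Finset.range m).filter fun j =>
            (!(Finset.range m \ J').toList.contains j) = true) = J' := by
          ext j
          simp only [Finset.mem_filter, Bool.not_eq_true', ← Bool.not_eq_true,
            List.contains_iff_mem, Finset.mem_toList, Finset.mem_sdiff]
          exact ⟨fun h => by by_contra hj; exact h.2 ⟨h.1, hj⟩, fun h => ⟨hsub h, fun h' => h'.2 h⟩⟩
        rw [this]
        exact ⟨hc'.ge, h3⟩

theorem inP_of_bounded {z : ℕ → ℕ} {c : ℕ} (hc : ∀ m, min (z m) (m - z m) ≤ c)
    (hz : N68a2faeb.IsPolyTime fun l : List Bool => z l.length) : InP z := by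
  have hz' := PT.ofIsPolyTime hz
  refine ⟨fun p => easy c p.1 p.2 (p.1.headD []).length (z (p.1.headD []).length),
    PT.isPolyTime ?_, (dec_iff z (fun p => easy c p.1 p.2 (p.1.headD []).length
      (z (p.1.headD []).length))).mpr fun n m F k hn _ => ?_⟩
  · have h1 : PT (fun p : List (List Bool) × ℕ => z (p.1.headD []).length) :=
      hz'.comp' (f := fun p : List (List Bool) × ℕ => p.1.headD []) (by fun_prop)
    have h2 := lists_pt c
    have : ∀ z' : List (List Bool) × ℕ → ℕ, PT z' →
        PT (fun p : List (List Bool) × ℕ => easy c p.1 p.2 (p.1.headD []).length (z' p)) := by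
      intro z' hz'
      unfold easy test; fun_prop
    exact this _ h1
  · have : ((mat n m F).headD []).length = m := by
      obtain ⟨n, rfl⟩ := Nat.exists_eq_succ_of_ne_zero hn.ne'
      simp [mat, List.range_succ_eq_map]
    simp only [this]
    exact easy_iff (hc m) F

theorem polyTime_of_inP {z : ℕ → ℕ} (hz : ∀ m, z m ≤ m) (h : InP z) :
    N68a2faeb.IsPolyTime fun l : List Bool => z l.length := by
  obtain ⟨g, hg, hd⟩ := h
  rw [dec_iff] at hd
  have : PT (fun l : List Bool => zc g (List.range (l.length + 1)) l.length) :=
    zc_pt (PT.ofIsPolyTime hg) (by fun_prop) (by fun_prop)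
  exact (this.of_eq fun l => zc_eq hd (hz _) (by omega) (by omega)).isPolyTime

end Pool.Agent.Lib.MP_8eff38_lc
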