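import Mathlib
import Pool.Agent.Lib.MP_8eff38_lc.Defs

set_option autoImplicit false

namespace Pool.Agent.Lib.MP_8eff38_lc

open Turing

/-- The vertices `a` and `b` are adjacent in the graph whose adjacency matrix has rows `G`. -/
def Adj (G : List (List Bool)) (a b : ℕ) : Prop :=
  (G.getD a []).getD b false = true ∧ (G.getD b []).getD a false = true

/-- The graph has a clique with `k` vertices. -/
def Clique (G : List (List Bool)) (k : ℕ) : Prop :=
  ∃ U ⊆ Finset.range G.length, U.card = k ∧ ∀ a ∈ U, ∀ b ∈ U, a ≠ b → Adj G a b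

/-- Maximum coverage: at most `k` of the sets in the list `p.1` cover at least `p.2` elements. -/
def MaxCov (p : List (List ℕ) × ℕ) (k : ℕ) : Prop :=
  ∃ D ⊆ Finset.range p.1.length, D.card ≤ k ∧
    p.2 ≤ (D.biUnion fun v => (p.1.getD v []).toFinset).card

/-- Fixed parameter tractability: one machine decides `Q` in time `f k` times a polynomial in the
input length, where `f` is computable. -/
def FPT {α : Type} [N487b59b3 α] (Q : α → ℕ → Prop) : Prop :=
  ∃ (M : TM2ComputableAux Bool Bool) (f : ℕ → ℕ) (q : Polynomial ℕ) (g : α × ℕ → Bool),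
    Nonempty (TM2Computable N487b59b3.bitEncode N487b59b3.bitEncode f) ∧
    ∀ x k, (g (x, k) = true ↔ Q x k) ∧
      Nonempty (TM2OutputsInTime M.tm (List.map M.inputAlphabet.invFun (N487b59b3.bitEncode (x, k)))
        (some (List.map M.outputAlphabet.invFun (N487b59b3.bitEncode (g (x, k)))))
        (f k * q.eval (N487b59b3.bitEncode (x, k)).length))

/-- The function `w` tends to infinity with a computable modulus. -/
def Eff (w : ℕ → ℕ) : Prop :=
  ∃ μ : ℕ → ℕ, Nonempty (TM2Computable N487b59b3.bitEncode N487b59b3.bitEncode μ) ∧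
    ∀ K m, μ K ≤ m → K ≤ w m

end Pool.Agent.Lib.MP_8eff38_lc
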