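import Mathlib
import Pool.Agent.Shared.ExpTime
import Pool.Agent.Shared.ClockedRun
import Pool.Agent.Lib.MP_8eff38_lc.FptDefs

set_option autoImplicit false

namespace Pool.Agent.Lib.MP_8eff38_lc

open Pool.Agent.Shared.PolyTime Turing

variable {α β : Type} [N487b59b3 α] [N487b59b3 β]

/-- Unbounded search for the first good padding, followed by a polynomial time function. -/
theorem search_run {P : α × List Bool → Bool} (hP : PT P) {A : α × List Bool → β} (hA : PT A) :
    ∃ (p : Prog) (d : ℕ) (q : Polynomial ℕ), ∀ a μ, P (a, List.replicate μ true) = true →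
      (∀ i < μ, P (a, List.replicate i true) = false) →
      Run p (io (N487b59b3.bitEncode a))
        (io (N487b59b3.bitEncode (A (a, List.replicate μ true)))) ((μ + 1) ^ d * q.eval (sz a)) := by
  have hfl : PT (fun s : α × List Bool => cond (P s) ([] : List Bool) [true]) := by fun_prop
  have hnx : PT (fun s : α × List Bool => cond (P s) s (s.1, true :: s.2)) := by fun_prop
  have hS := RP.pair hfl.raw hnx
  obtain ⟨ql, hl⟩ := hS.length
  obtain ⟨pS, qS, hS⟩ := hS
  obtain ⟨pA, qA, hA⟩ := hA
  have h0 : PT (fun a : α => (a, ([] : List Bool))) := by fun_prop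
  obtain ⟨p0, q0, h0⟩ := h0
  refine ⟨.seq p0 (.seq (.push 1 true) (.seq (.loop 1 (.seq (.pop 1) (.seq pS split))) pA)),
    (qS + ql + qA).natDegree + 1,
    q0 + 2 * (qS + ql + qA).comp (2 * Polynomial.X + 3) + 6, fun a μ hμ hlt => ?_⟩
  set B := (μ + 1) * (2 * sz a + 3) with hB
  have hsz : ∀ i ≤ μ, (N487b59b3.bitEncode (a, List.replicate i true)).length ≤ B := by
    intro i hi
    change sz (a, List.replicate i true) ≤ B
    rw [sz_pair, sz_listBool, List.length_replicate, hB]
    nlinarith
  set C := qS.eval B + ql.eval B + 3 with hC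
  have body : ∀ i ≤ μ, Run (.seq (.pop 1) (.seq pS split))
      (st (N487b59b3.bitEncode (a, List.replicate i true)) [true] [])
      (st (N487b59b3.bitEncode (cond (P (a, List.replicate i true)) (a, List.replicate i true)
        (a, true :: List.replicate i true)))
        (cond (P (a, List.replicate i true)) ([] : List Bool) [true]).reverse []) C := by
    intro i hi
    have s1 : Run (.pop 1) (st (N487b59b3.bitEncode (a, List.replicate i true)) [true] [])
        (st (N487b59b3.bitEncode (a, List.replicate i true)) [] []) 0 :=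
      (Run.pop _ _).cast (by simp) le_rfl
    have s2 := hS (a, List.replicate i true)
    rw [io_eq, io_eq] at s2
    have s3 := run_split (N487b59b3.delimit (cond (P (a, List.replicate i true)) ([] : List Bool) [true]) ++
      N487b59b3.bitEncode (cond (P (a, List.replicate i true)) (a, List.replicate i true)
        (a, true :: List.replicate i true)))
    rw [fstR_delimit, sndR_delimit] at s3
    refine (Run.seq s1 (Run.seq s2 s3)).mono ?_
    have h1 := eval_mono qS (hsz i hi)
    have h2 := (hl (a, List.replicate i true)).trans (eval_mono ql (hsz i hi))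
    dsimp only at h2
    omega
  have loop : ∀ j i, i + j = μ → Run (.loop 1 (.seq (.pop 1) (.seq pS split)))
      (st (N487b59b3.bitEncode (a, List.replicate i true)) [true] [])
      (st (N487b59b3.bitEncode (a, List.replicate μ true)) [] []) ((j + 1) * (C + 1) + 1) := by
    intro j
    induction j with
    | zero =>
      intro i hi
      obtain rfl : i = μ := by omega
      have := body i le_rfl
      rw [hμ] at this
      exact (Run.loopS (by simp) this (Run.loopE rfl)).mono (by omega)
    | succ j ih =>
      intro i hi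
      have := body i (by omega)
      rw [hlt i (by omega)] at this
      refine (Run.loopS (by simp) this (ih (i + 1) (by omega))).mono (le_of_eq (by ring))
  have s1 := h0 a
  rw [io_eq, io_eq] at s1
  have s2 : Run (.push 1 true) (st (N487b59b3.bitEncode (a, ([] : List Bool))) [] [])
      (st (N487b59b3.bitEncode (a, ([] : List Bool))) [true] []) 1 :=
    (Run.push _ _ _).cast (by simp) le_rfl
  have s3 := loop μ 0 (by omega)
  have s4 := hA (a, List.replicate μ true)
  rw [io_eq, io_eq] at s4
  have s5 := Run.seq s1 (Run.seq s2 (Run.seq s3 s4))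
  rw [← io_eq, ← io_eq] at s5
  refine s5.mono ?_
  have h1 := eval_mul_le (qS + ql + qA) le_rfl (2 * sz a + 3) (μ + 1) (by omega)
  have h2 := eval_mono qA (hsz μ le_rfl)
  rw [← hB] at h1
  simp only [Polynomial.eval_add, Polynomial.eval_mul, Polynomial.eval_comp, Polynomial.eval_X,
    Polynomial.eval_ofNat] at h1 ⊢
  rw [pow_succ]
  have hY : 1 ≤ (μ + 1) ^ (qS + ql + qA).natDegree := Nat.one_le_pow _ _ (by omega)
  generalize (μ + 1) ^ (qS + ql + qA).natDegree = Y at *
  change q0.eval (sz a) + _ ≤ _
  generalize qS.eval (2 * sz a + 3) + ql.eval (2 * sz a + 3) + qA.eval (2 * sz a + 3) = E at *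
  generalize qA.eval (N487b59b3.bitEncode (a, List.replicate μ true)).length = E1 at *
  generalize q0.eval (sz a) = E0
  have h3 : C + 1 ≤ Y * E + 4 := by omega
  have h4 : (μ + 1) * (C + 1) ≤ (μ + 1) * (Y * E + 4) := Nat.mul_le_mul_left _ h3
  have h5 : E1 ≤ Y * E := by omega
  have h6 : 1 ≤ Y * (μ + 1) := Nat.mul_pos hY (by omega)
  have h7 : μ + 1 ≤ Y * (μ + 1) := Nat.le_mul_of_pos_left _ hY
  have h8 : E0 ≤ Y * (μ + 1) * E0 := Nat.le_mul_of_pos_left _ h6
  have h9 : Y * E ≤ (μ + 1) * (Y * E) := Nat.le_mul_of_pos_left _ (by omega)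
  nlinarith

theorem outputs_of_run {p : Prog} {x y : List Bool} {t T : ℕ} (h : Run p (io x) (io y) t)
    (hT : t + 1 ≤ T) : Outputs (machineAux p) x y T := by
  obtain ⟨⟨⟨s, hs⟩, hle⟩⟩ := h.toTM2
  have e1 : ∀ l : List Bool, List.map (Equiv.refl Bool).invFun l = l := by
    intro l; simp
  refine ⟨{ steps := s, evals_in_steps := ?_, steps_le_m := hle.trans hT }⟩
  rw [← e1 x, ← e1 y] at hs
  exact hs

/-- A polynomial time algorithm that is correct after a padding found by search on the parameter
gives fixed parameter tractability. -/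
theorem fpt_of {Q : α → ℕ → Prop} {P : ℕ × List Bool → Bool} (hP : PT P)
    (hex : ∀ k, ∃ μ, P (k, List.replicate μ true) = true)
    {A : (α × ℕ) × List Bool → Bool} (hA : PT A)
    (h : ∀ G k μ, P (k, List.replicate μ true) = true →
      (A ((G, k), List.replicate μ true) = true ↔ Q G k)) : FPT Q := by
  have hP' : PT (fun s : (α × ℕ) × List Bool => P (s.1.2, s.2)) := by fun_prop
  obtain ⟨p, d, q, hp⟩ := search_run hP' hA
  have hA' : PT (fun s : ℕ × List Bool => (s.2.length + 1) ^ d) := by fun_prop
  obtain ⟨p', d', q', hp'⟩ := search_run hP hA'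
  have hmin : ∀ k, ∀ i < Nat.find (hex k), P (k, List.replicate i true) = false :=
    fun k i hi => by simpa using Nat.find_min (hex k) hi
  refine ⟨machineAux p, fun k => (Nat.find (hex k) + 1) ^ d, q + 1,
    fun x => A (x, List.replicate (Nat.find (hex x.2)) true), ⟨⟨machineAux p', fun k => ?_⟩⟩,
    fun G k => ⟨h G k _ (Nat.find_spec (hex k)), ?_⟩⟩
  · have := outputs_of_run (hp' k _ (Nat.find_spec (hex k)) (hmin k)) le_rfl
    rw [List.length_replicate] at this
    exact (Classical.choice this).toTM2Outputs
  · refine outputs_of_run (hp (G, k) _ (Nat.find_spec (hex k)) (hmin k)) ?_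
    have : 1 ≤ (Nat.find (hex k) + 1) ^ d := Nat.one_le_pow _ _ (by omega)
    simp only [Polynomial.eval_add, Polynomial.eval_one, mul_add, mul_one, sz]
    omega

theorem outputs_of_computable {f : ℕ → ℕ}
    (N : TM2Computable N487b59b3.bitEncode N487b59b3.bitEncode f) (k : ℕ) :
    ∃ T, Outputs N.toTM2ComputableAux k.bits (f k).bits T := by
  have := N.outputsFun k
  rw [enc_nat, enc_nat] at this
  exact ⟨this.steps, ⟨{ toEvalsTo := this, steps_le_m := le_rfl }⟩⟩

theorem outputs_mono {M : TM2ComputableAux Bool Bool} {a b : List Bool} {T T' : ℕ}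
    (h : Outputs M a b T) (hT : T ≤ T') : Outputs M a b T' := by
  obtain ⟨⟨e, hle⟩⟩ := h
  exact ⟨{ toEvalsTo := e, steps_le_m := hle.trans hT }⟩

theorem Eff.test {w : ℕ → ℕ} (h : Eff w) : ∃ P : ℕ × List Bool → Bool, PT P ∧
    (∀ k, ∃ μ, P (k, List.replicate μ true) = true) ∧
    ∀ k μ m, P (k, List.replicate μ true) = true → μ ≤ m → k ≤ w m := by
  obtain ⟨ν, ⟨N⟩, hν⟩ := h
  obtain ⟨run, hr, hrun⟩ := exists_clocked N.toTM2ComputableAux
  refine ⟨fun s => (run (s.1.bits, s.2)).elim false fun b => decide (val b ≤ s.2.length),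
    by fun_prop, fun k => ?_, fun k μ m hP hm => ?_⟩
  · obtain ⟨T, hT⟩ := outputs_of_computable N k
    refine ⟨T + ν k, ?_⟩
    simp only [(hrun _ (List.replicate (T + ν k) true) _ _ hT).1 (by simp), Option.elim_some,
      val_bits, List.length_replicate, decide_eq_true_eq]
    omega
  · obtain ⟨T, hT⟩ := outputs_of_computable N k
    cases e : run (k.bits, List.replicate μ true) with
    | none => simp [e] at hP
    | some b =>
      simp only [e, Option.elim_some, (hrun _ _ _ _ hT).2 b e, val_bits, List.length_replicate,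
        decide_eq_true_eq] at hP
      exact hν k m (hP.trans hm)

theorem eff_of_mono {w : ℕ → ℕ} (hw : PT fun l : List Bool => w l.length) (hm : Monotone w)
    (hu : ∀ K, ∃ m, K ≤ w m) : Eff w := by
  have hP : PT (fun s : ℕ × List Bool => decide (s.1 ≤ w s.2.length)) :=
    PT.decide_le (by fun_prop) (hw.comp' (f := fun s : ℕ × List Bool => s.2) (by fun_prop))
  have hA : PT (fun s : ℕ × List Bool => s.2.length) := by fun_prop
  obtain ⟨p, d, q, hp⟩ := search_run hP hA
  refine ⟨fun K => Nat.find (hu K), ⟨⟨machineAux p, fun K => ?_⟩⟩,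
    fun K m h => (Nat.find_spec (hu K)).trans (hm h)⟩
  have := outputs_of_run (hp K (Nat.find (hu K)) (by simpa using Nat.find_spec (hu K))
    (fun i hi => by simpa using Nat.find_min (hu K) hi)) le_rfl
  rw [List.length_replicate] at this
  exact (Classical.choice this).toTM2Outputs

theorem Eff.mono {w w' : ℕ → ℕ} (h : Eff w) (hle : ∀ m, w m ≤ w' m) : Eff w' := by
  obtain ⟨ν, hN, hν⟩ := h
  exact ⟨ν, hN, fun K m hm => (hν K m hm).trans (hle m)⟩

end Pool.Agent.Lib.MP_8eff38_lc
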