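import Mathlib
import Pool.Agent.Lib.MP_8eff38_lc.Easy
import Pool.Agent.Lib.MP_8eff38_lc.FptSearch

set_option autoImplicit false

namespace Pool.Agent.Lib.MP_8eff38_lc

open Pool.Agent.Shared.PolyTime

/-- Adjacency as a boolean. -/
def adjb (G : List (List Bool)) (a b : ℕ) : Bool :=
  (G.getD a []).getD b false && (G.getD b []).getD a false

theorem adjb_iff (G : List (List Bool)) (a b : ℕ) : adjb G a b = true ↔ Adj G a b := by
  simp only [adjb, Adj, Bool.and_eq_true]

section
variable {α : Type} [N487b59b3 α]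

@[fun_prop] theorem adjb_pt {G : α → List (List Bool)} {a b : α → ℕ} (hG : PT G) (ha : PT a)
    (hb : PT b) : PT (fun x => adjb (G x) (a x) (b x)) := by
  unfold adjb; fun_prop

/-- The quota at the length of a string, by queries to `g`. -/
def zq (g : List (List Bool) × ℕ → Bool) (m : ℕ) : ℕ := zc g (List.range (m + 1)) m

theorem zq_pt {g : List (List Bool) × ℕ → Bool} (hg : PT g) {m : α → ℕ} (hm : PT m) (hb : PB m) :
    PT (fun x => zq g (m x)) :=
  zc_pt hg (PT.range (hm.add (PT.const 1)) (hb.add (PB.const 1))) hm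

theorem zq_eq {z : ℕ → ℕ} {g : List (List Bool) × ℕ → Bool} (hg : Dec z g) {m : ℕ}
    (hz : z m ≤ m) : zq g m = z m := zc_eq hg hz (by omega) (by omega)

/-- Good triples for the clique problem. -/
def gcl (G : List (List Bool)) (T : List ℕ) : Bool :=
  decide (T.getD 0 0 < G.length) && (T.getD 0 0 == T.getD 1 0 || adjb G (T.getD 0 0) (T.getD 1 0))

@[fun_prop] theorem gcl_pt {G : α → List (List Bool)} {T : α → List ℕ} (hG : PT G) (hT : PT T) :
    PT (fun x => gcl (G x) (T x)) := by
  unfold gcl; fun_prop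

theorem dense_clique (G : List (List Bool)) (k : ℕ) :
    Dense (G.length + 1) k (fun t => gcl G (tri (G.length + 1) t)) ↔ Clique G k := by
  rw [dense_iff]
  constructor
  · rintro ⟨U, -, hk, h⟩
    refine ⟨U, fun a ha => ?_, hk, fun a ha b hb hab => ?_⟩
    · have := h a ha a ha a ha
      simp only [gcl, Bool.and_eq_true, decide_eq_true_eq] at this
      exact Finset.mem_range.mpr this.1
    · have := h a ha b hb a ha
      simp only [gcl, Bool.and_eq_true, Bool.or_eq_true, beq_iff_eq] at this
      exact (adjb_iff G a b).mp (this.2.resolve_left hab)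
  · rintro ⟨U, hU, hk, h⟩
    refine ⟨U, hU.trans (Finset.range_subset_range.mpr (by omega)), hk, fun a ha b hb c _ => ?_⟩
    simp only [gcl, Bool.and_eq_true, Bool.or_eq_true, beq_iff_eq, decide_eq_true_eq]
    refine ⟨Finset.mem_range.mp (hU ha), ?_⟩
    by_cases hab : a = b
    · exact Or.inl hab
    · exact Or.inr ((adjb_iff G a b).mpr (h a ha b hb hab))

/-- The reduction from clique for a given number of issues. -/
def redC (g : List (List Bool) × ℕ → Bool) (G : List (List Bool)) (k V : ℕ) (L : List ℕ)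
    (m z : ℕ) : Bool :=
  if k = 0 then true else if V ≤ k then false else
  if V ^ 3 + z ≤ m then g (matL L V m (F1 V k z (fun t => gcl G (tri V t))), k)
  else g (matL L (V ^ 3) m (F2 V k (m - z) (fun t => gcl G (tri V t))), V ^ 3 - k ^ 3)

theorem redC_pt {g : List (List Bool) × ℕ → Bool} (hg : PT g) {G : α → List (List Bool)}
    {k V m z : α → ℕ} {L : α → List ℕ} (hG : PT G) (hk : PT k) (hV : PT V) (hL : PT L) (hm : PT m)
    (hz : PT z) : PT (fun x => redC g (G x) (k x) (V x) (L x) (m x) (z x)) := by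
  unfold redC
  refine PT.ite (by fun_prop) (PT.const _) (PT.ite (by fun_prop) (PT.const _)
    (PT.ite (by fun_prop) (hg.comp' (PT.pair ?_ hk)) (hg.comp' (PT.pair ?_ (by fun_prop)))))
  · refine matL_pt hL (by fun_prop) hm ?_
    unfold F1; fun_prop
  · refine matL_pt hL (by fun_prop) hm ?_
    unfold F2; fun_prop

theorem redC_iff {z : ℕ → ℕ} {g : List (List Bool) × ℕ → Bool} (hg : Dec z g)
    (G : List (List Bool)) {k M m : ℕ} (h1 : 2 * (G.length + 1) ^ 3 ≤ m) (h2 : m ≤ M)
    (h4 : k ^ 3 ≤ z m) (h5 : k ^ 3 ≤ m - z m) :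
    redC g G k (G.length + 1) (List.range M) m (z m) = true ↔ Clique G k := by
  unfold redC
  split_ifs with h0 hkV h
  · subst h0
    exact ⟨fun _ => ⟨∅, by simp, by simp, by simp⟩, fun _ => rfl⟩
  · refine ⟨fun h => absurd h (by simp), ?_⟩
    rintro ⟨U, hU, hk, -⟩
    have := Finset.card_le_card hU
    rw [Finset.card_range] at this
    omega
  all_goals
    rw [← dense_clique]
    generalize (fun t => gcl G (tri (G.length + 1) t)) = F
    generalize G.length + 1 = V at *
    have hV : V ≤ V ^ 3 := Nat.le_self_pow (by norm_num) V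
    have hk3 : k ≤ k ^ 3 := Nat.le_self_pow (by norm_num) k
  · rw [matL_range (by omega) h2, hg _ _ _ _ (by omega) (by omega), sel_F1 F h4 h (by omega)]
  · rw [matL_range (by omega) h2, hg _ _ _ _ (by omega) (Nat.sub_le _ _),
      ← sel_F2 (z := z m) (w := m - z m) F (by omega) (by omega) (by omega) (by omega),
      show z m + (m - z m) = m by omega]

end

theorem fpt_clique {z : ℕ → ℕ} (hz : ∀ m, z m ≤ m) (he : Eff fun m => min (z m) (m - z m))
    (h : InP z) : FPT Clique := by
  obtain ⟨g, hg, hd⟩ := h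
  rw [dec_iff] at hd
  have hg' := PT.ofIsPolyTime hg
  obtain ⟨P, hP, hex, hPw⟩ := he.test
  refine fpt_of (P := fun s => P (s.1 ^ 3, s.2)) (by fun_prop) (fun k => hex (k ^ 3))
    (A := fun s => redC g s.1.1 s.1.2 (s.1.1.length + 1)
      (List.range (max s.2.length (2 * (s.1.1.length + 1) ^ 3)))
      (max s.2.length (2 * (s.1.1.length + 1) ^ 3))
      (zq g (max s.2.length (2 * (s.1.1.length + 1) ^ 3)))) ?_ ?_
  · exact redC_pt hg' (by fun_prop) (by fun_prop) (by fun_prop) (by fun_prop) (by fun_prop)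
      (zq_pt hg' (by fun_prop) (by fun_prop))
  · intro G k μ hμ
    simp only [List.length_replicate, zq_eq hd (hz _)]
    have := hPw _ _ _ hμ (le_max_left μ (2 * (G.length + 1) ^ 3))
    exact redC_iff hd G (le_max_right _ _) le_rfl (this.trans (min_le_left _ _))
      (this.trans (min_le_right _ _))

end Pool.Agent.Lib.MP_8eff38_lc
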