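import Mathlib
import Pool.Agent.Lib.MP_8eff38_lc.FptClique

set_option autoImplicit false

namespace Pool.Agent.Lib.MP_8eff38_lc

open Pool.Agent.Shared.PolyTime Finset

theorem countP_getD {β : Type} (l : List β) (d : β) (p : β → Bool) :
    l.countP p = ((range l.length).filter fun i => p (l.getD i d) = true).card := by
  rw [← countP_range l.length (fun i => p (l.getD i d))]
  have : l = (List.range l.length).map fun i => l.getD i d := by
    apply List.ext_getElem
    · simp
    · intro i h1 h2
      simp [h1]
  conv_lhs => rw [this]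
  rw [List.countP_map]
  rfl

theorem countP_prod (a b : ℕ) (p : ℕ × ℕ → Bool) :
    ((List.range a).product (List.range b)).countP p =
      ((range a ×ˢ range b).filter fun x => p x = true).card := by
  rw [Finset.card_def, Finset.filter_val, ← Multiset.countP_eq_card_filter, Finset.product_val]
  change _ = Multiset.countP _ ((List.range a : Multiset ℕ) ×ˢ (List.range b : Multiset ℕ))
  rw [Multiset.coe_product, Multiset.coe_countP]
  simp only [Bool.decide_eq_true]
  rfl

/-- The matrix whose rows have the zero sets `Ls` on the first `V` columns. -/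
def FS (Ls : List (List ℕ)) (V k z : ℕ) (i j : ℕ) : Bool :=
  if j < V then !(Ls.getD i []).contains j else decide (j < V + (z - k))

/-- The number of rows whose zero set avoids `S`. -/
def free (Ls : List (List ℕ)) (S : Finset ℕ) : ℕ := Ls.countP fun R => R.all fun c => decide (c ∉ S)

theorem sel_FS {Ls : List (List ℕ)} {V k z m s : ℕ} (h1 : k ≤ z) (h2 : V + z ≤ m) (h3 : 0 < s) :
    (s ≤ Ls.length ∧ Sel z Ls.length m (FS Ls V k z) (Ls.length - s)) ↔
      ∃ S ⊆ range V, S.card = k ∧ s ≤ free Ls S := by
  constructor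
  · rintro ⟨hs, J, hJ, hz, hb⟩
    have hS := card_filter_add_card_filter_not (s := range Ls.length)
      (fun i => ∃ j ∈ J, FS Ls V k z i j = false)
    rw [card_range] at hS
    set T := (range Ls.length).filter fun i => ¬ ∃ j ∈ J, FS Ls V k z i j = false with hT
    have hall : ∀ t ∈ T, ∀ j ∈ J, FS Ls V k z t j = true := by
      intro t ht j hj
      by_contra hc
      exact (mem_filter.mp ht).2 ⟨j, hj, by simpa using hc⟩
    obtain ⟨t0, ht0⟩ : T.Nonempty := card_pos.mp (by omega)
    have hsub : J ⊆ (range V ∩ J) ∪ Ico V (V + (z - k)) := by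
      intro j hj
      rw [mem_union, mem_inter, mem_range, mem_Ico]
      by_cases hlt : j < V
      · exact Or.inl ⟨hlt, hj⟩
      · exact Or.inr ⟨by omega, by simpa [FS, hlt] using hall t0 ht0 j hj⟩
    have hc := (card_le_card hsub).trans (card_union_le _ _)
    rw [Nat.card_Ico] at hc
    obtain ⟨S, hS1, hS2⟩ := exists_subset_card_eq (s := range V ∩ J) (n := k) (by omega)
    refine ⟨S, hS1.trans inter_subset_left, hS2, ?_⟩
    rw [free, countP_getD _ []]
    refine le_trans (by omega : s ≤ T.card) (card_le_card fun t ht => ?_)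
    refine mem_filter.mpr ⟨(mem_filter.mp ht).1, ?_⟩
    simp only [List.all_eq_true, decide_eq_true_eq]
    intro c hc hcS
    have h4 := mem_inter.mp (hS1 hcS)
    have := hall t ht c h4.2
    rw [FS, if_pos (mem_range.mp h4.1)] at this
    simp only [Bool.not_eq_true', ← Bool.not_eq_true, List.contains_iff_mem] at this
    exact this hc
  · rintro ⟨S, hS, hk, hs⟩
    refine ⟨hs.trans List.countP_le_length, S ∪ Ico V (V + (z - k)), ?_, ?_, ?_⟩
    · intro j hj
      rw [mem_union, mem_Ico] at hj
      rcases hj with hj | hj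
      · have := mem_range.mp (hS hj)
        exact mem_range.mpr (by omega)
      · exact mem_range.mpr (by omega)
    · rw [card_union_of_disjoint, Nat.card_Ico]
      · omega
      · rw [disjoint_left]
        intro j hj hj'
        have := mem_range.mp (hS hj)
        rw [mem_Ico] at hj'
        omega
    · rw [free, countP_getD _ []] at hs
      set T := (range Ls.length).filter fun i =>
        ((Ls.getD i []).all fun c => decide (c ∉ S)) = true with hT
      have h4 : (range Ls.length \ T).card = Ls.length - T.card := by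
        rw [card_sdiff_of_subset (filter_subset _ _), card_range]
      refine le_trans (card_le_card (t := range Ls.length \ T) fun t ht => ?_) (by omega)
      obtain ⟨ht1, j, hj, hF⟩ := mem_filter.mp ht
      refine mem_sdiff.mpr ⟨ht1, fun htT => ?_⟩
      have h5 := (mem_filter.mp htT).2
      simp only [List.all_eq_true, decide_eq_true_eq] at h5
      rw [mem_union, mem_Ico] at hj
      rcases hj with hj | hj
      · rw [FS, if_pos (mem_range.mp (hS hj))] at hF
        simp only [Bool.not_eq_false', List.contains_iff_mem] at hF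
        exact h5 j hF hj
      · rw [FS, if_neg (by omega)] at hF
        simp only [decide_eq_false_iff_not] at hF
        omega

/-- The pairs of unchosen columns in different groups. -/
def cross (N k : ℕ) (S : Finset ℕ) : ℕ :=
  ((range (k * N) ×ˢ range (k * N)).filter fun x =>
    x.1 / N ≠ x.2 / N ∧ x.1 ∉ S ∧ x.2 ∉ S).card

theorem card_group {N k j : ℕ} (hN : 0 < N) (hj : j < k) :
    ((range (k * N)).filter fun c => c / N = j).card = N := by
  have : ((range (k * N)).filter fun c => c / N = j) = Ico (j * N) (j * N + N) := by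
    ext c
    rw [mem_filter, mem_range, mem_Ico, Nat.div_eq_iff hN]
    have : j * N + N ≤ k * N := by nlinarith
    omega
  rw [this, Nat.card_Ico]
  omega

theorem cross_eq {N k : ℕ} (hN : 0 < N) {S : Finset ℕ} (hS : S ⊆ range (k * N)) (hk : S.card = k) :
    (cross N k S : ℤ) + ∑ j ∈ range k, (((S.filter fun c => c / N = j).card : ℤ) - 1) ^ 2 =
      ((k : ℤ) * (N - 1)) ^ 2 - k * (N - 1) ^ 2 := by
  set C := range (k * N) \ S with hC
  have hCc : (C.card : ℤ) = k * (N - 1) := by
    have h1 := card_sdiff_add_card_eq_card hS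
    rw [card_range, hk] at h1
    have h2 : (C.card : ℤ) + k = k * N := by exact_mod_cast h1
    linarith
  have hdiv : ∀ c ∈ range (k * N), c / N ∈ range k := fun c hc =>
    mem_range.mpr ((Nat.div_lt_iff_lt_mul hN).mpr (mem_range.mp hc))
  have hu : ∀ j ∈ range k, ((C.filter fun c => c / N = j).card : ℤ) =
      N - (S.filter fun c => c / N = j).card := by
    intro j hj
    have h1 := card_group hN (mem_range.mp hj)
    have h2 : (S.filter fun c => c / N = j) ⊆ (range (k * N)).filter fun c => c / N = j :=
      filter_subset_filter _ hS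
    have h3 := card_sdiff_add_card_eq_card h2
    have h4 : ((range (k * N)).filter fun c => c / N = j) \ (S.filter fun c => c / N = j) =
        C.filter fun c => c / N = j := by
      ext c
      simp only [hC, mem_sdiff, mem_filter]
      tauto
    rw [h4, h1] at h3
    have h5 : ((C.filter fun c => c / N = j).card : ℤ) + (S.filter fun c => c / N = j).card = N := by
      exact_mod_cast h3
    linarith
  have hs : ∑ j ∈ range k, ((S.filter fun c => c / N = j).card : ℤ) = k := by
    have := card_eq_sum_card_fiberwise (f := fun c => c / N) (s := S) (t := range k)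
      (fun c hc => hdiv c (hS hc))
    rw [hk] at this
    exact_mod_cast this.symm
  have h1 : cross N k S = ((C ×ˢ C).filter fun x => ¬ x.1 / N = x.2 / N).card := by
    unfold cross
    congr 1
    ext x
    simp only [hC, mem_filter, mem_product, mem_sdiff]
    tauto
  have h2 := card_filter_add_card_filter_not (s := C ×ˢ C) (fun x => x.1 / N = x.2 / N)
  rw [card_product, ← h1] at h2
  have h3 : ((C ×ˢ C).filter fun x => x.1 / N = x.2 / N).card =
      ∑ j ∈ range k, (C.filter fun c => c / N = j).card ^ 2 := by
    rw [card_eq_sum_card_fiberwise (f := fun x : ℕ × ℕ => x.1 / N) (t := range k)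
      (fun x hx => hdiv _ (mem_sdiff.mp (mem_product.mp (mem_filter.mp hx).1).1).1)]
    refine sum_congr rfl fun j _ => ?_
    rw [sq, ← card_product]
    congr 1
    ext x
    simp only [mem_filter, mem_product]
    constructor
    · rintro ⟨⟨⟨a, b⟩, c⟩, d⟩
      exact ⟨⟨a, d⟩, b, c ▸ d⟩
    · rintro ⟨⟨a, b⟩, c, d⟩
      exact ⟨⟨⟨a, c⟩, b.trans d.symm⟩, b⟩
  rw [h3] at h2
  have h4 : ∑ j ∈ range k, ((C.filter fun c => c / N = j).card : ℤ) ^ 2 + cross N k S =
      (C.card : ℤ) * C.card := by exact_mod_cast h2
  rw [sum_congr rfl (fun j hj => by rw [hu j hj]), hCc] at h4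
  have h5 : ∑ j ∈ range k, ((N : ℤ) - (S.filter fun c => c / N = j).card) ^ 2 =
      ∑ j ∈ range k, ((((S.filter fun c => c / N = j).card : ℤ) - 1) ^ 2 +
        ((N : ℤ) ^ 2 - 1) - (2 * N - 2) * (S.filter fun c => c / N = j).card) :=
    sum_congr rfl fun j _ => by ring
  rw [h5, sum_sub_distrib, sum_add_distrib, ← mul_sum, hs, sum_const, card_range,
    nsmul_eq_mul] at h4
  linear_combination h4

/-- The pairs `(e, i)` such that `e` is first covered in group `i`. -/
def first (dm : ℕ → ℕ → Bool) (N E k : ℕ) (S : Finset ℕ) : Finset (ℕ × ℕ) :=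
  (range E ×ˢ range k).filter fun x => ∀ c ∈ S,
    (c / N < x.2 → dm x.1 (c % N) = false) ∧ (c / N = x.2 → dm x.1 (c % N) = true)

theorem card_first (dm : ℕ → ℕ → Bool) {N E k : ℕ} {S : Finset ℕ} (h1 : ∀ c ∈ S, c / N < k)
    (h2 : ∀ j < k, ∃ c ∈ S, c / N = j) (h3 : ∀ c ∈ S, ∀ c' ∈ S, c / N = c' / N → c = c') :
    (first dm N E k S).card = ((range E).filter fun e => ∃ c ∈ S, dm e (c % N) = true).card := by
  refine card_nbij (fun x => x.1) (fun x hx => ?_) (fun x hx y hy e => ?_) (fun a ha => ?_)
  · obtain ⟨hx1, hx2⟩ := mem_filter.mp hx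
    obtain ⟨c, hc, hcj⟩ := h2 x.2 (mem_range.mp (mem_product.mp hx1).2)
    exact mem_filter.mpr ⟨(mem_product.mp hx1).1, c, hc, (hx2 c hc).2 hcj⟩
  · have key : ∀ x ∈ first dm N E k S, ∀ y ∈ first dm N E k S, x.1 = y.1 → ¬ x.2 < y.2 := by
      intro x hx y hy e hlt
      obtain ⟨hx1, hx2⟩ := mem_filter.mp hx
      obtain ⟨c, hc, hcj⟩ := h2 x.2 (mem_range.mp (mem_product.mp hx1).2)
      have a1 := (hx2 c hc).2 hcj
      have a2 := ((mem_filter.mp hy).2 c hc).1 (by rw [hcj]; exact hlt)
      rw [e, a2] at a1
      exact absurd a1 (by simp)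
    have a1 := key x hx y hy e
    have a2 := key y hy x hx e.symm
    exact Prod.ext e (by omega)
  · obtain ⟨ha1, c, hc, hd⟩ := mem_filter.mp ha
    obtain ⟨c0, hc0, hmin⟩ := exists_min_image (S.filter fun c => dm a (c % N) = true)
      (fun c => c / N) ⟨c, mem_filter.mpr ⟨hc, hd⟩⟩
    obtain ⟨hc1, hc2⟩ := mem_filter.mp hc0
    refine ⟨(a, c0 / N), mem_filter.mpr ⟨mem_product.mpr ⟨ha1, mem_range.mpr (h1 c0 hc1)⟩,
      fun c' hc' => ⟨fun hlt => ?_, fun e => ?_⟩⟩, rfl⟩
    · by_contra hx
      exact absurd (hmin c' (mem_filter.mpr ⟨hc', by simpa using hx⟩)) (not_le.mpr hlt)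
    · rw [h3 c' hc' c0 hc1 e]
      exact hc2

/-- Element number `e` of `U` lies in set number `v`. -/
def memb (A : List (List ℕ)) (U : List ℕ) (e v : ℕ) : Bool := (A.getD v []).contains (U.getD e 0)

/-- The row which is free when `e` is first covered in group `i`. -/
def lrow (A : List (List ℕ)) (U L : List ℕ) (V : ℕ) (x : ℕ × ℕ) : List ℕ :=
  (L.take V).filter fun c =>
    (decide (c / A.length < x.2) && memb A U x.1 (c % A.length)) ||
      (c / A.length == x.2 && !memb A U x.1 (c % A.length))

/-- All rows. -/
def rowsD (A : List (List ℕ)) (U L : List ℕ) (k : ℕ) : List (List ℕ) :=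
  ((L.take U.length).product (L.take k)).map (lrow A U L (k * A.length)) ++
    (L.take (k * U.length + 1)).flatMap fun _ =>
      (((L.take (k * A.length)).product (L.take (k * A.length))).filter
        fun x => x.1 / A.length != x.2 / A.length).map fun x => [x.1, x.2]

theorem free_rowsD (A : List (List ℕ)) (U : List ℕ) {k M : ℕ} (hM : k * A.length ≤ M)
    (h0 : k * U.length + 1 ≤ M) (h1 : U.length ≤ M) (h2 : k ≤ M) {S : Finset ℕ}
    (hS : S ⊆ range (k * A.length)) :
    free (rowsD A U (List.range M) k) S =
      (first (memb A U) A.length U.length k S).card + (k * U.length + 1) * cross A.length k S := by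
  rw [free, rowsD, List.countP_append, List.countP_flatMap]
  simp only [List.take_range, min_eq_left hM, min_eq_left h1, min_eq_left h2, min_eq_left h0]
  congr 1
  · rw [List.countP_map, countP_prod, first]
    congr 1
    refine filter_congr fun x _ => ?_
    simp only [Function.comp, lrow, List.take_range, min_eq_left hM,
      List.all_eq_true, List.mem_filter, List.mem_range, decide_eq_true_eq, Bool.or_eq_true,
      Bool.and_eq_true, beq_iff_eq, Bool.not_eq_true']
    constructor
    · intro h c hc
      have h3 := mem_range.mp (hS hc)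
      constructor
      · intro h4
        by_contra h5
        exact h c ⟨h3, Or.inl ⟨h4, by simpa using h5⟩⟩ hc
      · intro h4
        by_contra h5
        exact h c ⟨h3, Or.inr ⟨h4, by simpa using h5⟩⟩ hc
    · rintro h c ⟨-, h3 | h3⟩ hc
      · have := (h c hc).1 h3.1
        rw [h3.2] at this
        exact absurd this (by simp)
      · have := (h c hc).2 h3.1
        rw [h3.2] at this
        exact absurd this (by simp)
  · simp only [Function.comp_def, List.map_const', List.length_range, List.sum_replicate,
      smul_eq_mul]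
    congr 1
    rw [List.countP_map, List.countP_filter, countP_prod, cross]
    congr 1
    refine filter_congr fun x _ => ?_
    simp only [Function.comp, List.all_cons, List.all_nil, Bool.and_true, Bool.and_eq_true,
      decide_eq_true_eq, bne_iff_ne]
    tauto

theorem card_cover (A : List (List ℕ)) (D : Finset ℕ) :
    ((range A.flatten.dedup.length).filter fun e =>
      ∃ v ∈ D, memb A A.flatten.dedup e v = true).card =
      (D.biUnion fun v => (A.getD v []).toFinset).card := by
  have h := countP_getD A.flatten.dedup 0 (fun x => decide (∃ v ∈ D, x ∈ A.getD v []))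
  rw [List.countP_eq_length_filter,
    ← List.toFinset_card_of_nodup ((List.nodup_dedup _).filter _)] at h
  refine Eq.trans ?_ (h.symm.trans ?_)
  · congr 1
    refine filter_congr fun e _ => ?_
    simp only [memb, List.contains_iff_mem, decide_eq_true_eq]
  · congr 1
    ext x
    simp only [List.mem_toFinset, List.mem_filter, List.mem_dedup, List.mem_flatten,
      decide_eq_true_eq, mem_biUnion]
    refine ⟨fun h => h.2, fun h => ⟨?_, h⟩⟩
    obtain ⟨v, -, hv⟩ := h
    by_cases hl : v < A.length
    · rw [List.getD_eq_getElem _ _ hl] at hv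
      exact ⟨_, List.getElem_mem hl, hv⟩
    · rw [List.getD_eq_default _ _ (not_lt.mp hl)] at hv
      simp at hv

theorem cov_iff (A : List (List ℕ)) (U : List ℕ) {k M s : ℕ} (hM : k * A.length ≤ M)
    (h0 : k * U.length + 1 ≤ M) (h1 : U.length ≤ M) (h2 : k ≤ M) (hN : 0 < A.length) :
    (∃ S ⊆ range (k * A.length), S.card = k ∧
      (k * U.length + 1) * ((k * (A.length - 1)) ^ 2 - k * (A.length - 1) ^ 2) + s ≤
        free (rowsD A U (List.range M) k) S) ↔ ∃ D ⊆ range A.length, D.card ≤ k ∧
      s ≤ ((range U.length).filter fun e => ∃ v ∈ D, memb A U e v = true).card := by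
  set N := A.length with hNd
  set E := U.length with hEd
  have hF : ((((k * (N - 1)) ^ 2 - k * (N - 1) ^ 2 : ℕ)) : ℤ) =
      ((k : ℤ) * (N - 1)) ^ 2 - k * (N - 1) ^ 2 := by
    have h3 : k * (N - 1) ^ 2 ≤ (k * (N - 1)) ^ 2 := by
      rw [mul_pow]
      exact Nat.mul_le_mul_right _ (Nat.le_self_pow (by norm_num) k)
    push_cast [Nat.cast_sub h3, Nat.cast_sub hN]
    ring
  generalize (k * (N - 1)) ^ 2 - k * (N - 1) ^ 2 = F0 at hF
  constructor
  · rintro ⟨S, hS, hk, hs⟩
    rw [free_rowsD A U hM h0 h1 h2 hS, ← hNd, ← hEd] at hs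
    have h3 := cross_eq hN hS hk
    rw [← hF] at h3
    have h4 : (first (memb A U) N E k S).card ≤ k * E := by
      refine (card_le_card (filter_subset _ _)).trans ?_
      rw [card_product, card_range, card_range, mul_comm]
    have h5 : 0 ≤ ∑ j ∈ range k, (((S.filter fun c => c / N = j).card : ℤ) - 1) ^ 2 :=
      sum_nonneg fun j _ => sq_nonneg _
    have h6 : F0 ≤ cross N k S := by
      by_contra hc
      have : (k * E + 1) * (cross N k S + 1) ≤ (k * E + 1) * F0 :=
        Nat.mul_le_mul_left _ (by omega)
      rw [mul_add (k * E + 1)] at this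
      omega
    have h7 : cross N k S = F0 := by omega
    rw [h7] at hs h3
    have h8 : ∀ j < k, (S.filter fun c => c / N = j).card = 1 := by
      intro j hj
      have h9 := (sum_eq_zero_iff_of_nonneg fun j _ => sq_nonneg
        (((S.filter fun c => c / N = j).card : ℤ) - 1)).mp (by omega : ∑ j ∈ range k,
          (((S.filter fun c => c / N = j).card : ℤ) - 1) ^ 2 = 0) j (mem_range.mpr hj)
      have := pow_eq_zero_iff (two_ne_zero) |>.mp h9
      omega
    have hlt : ∀ c ∈ S, c / N < k := fun c hc =>
      (Nat.div_lt_iff_lt_mul hN).mpr (mem_range.mp (hS hc))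
    rw [card_first _ hlt (fun j hj => by
        obtain ⟨c, hc⟩ : (S.filter fun c => c / N = j).Nonempty :=
          card_pos.mp (by rw [h8 j hj]; exact Nat.one_pos)
        exact ⟨c, (mem_filter.mp hc).1, (mem_filter.mp hc).2⟩)
      (fun c hc c' hc' e => card_le_one.mp (h8 _ (hlt c hc)).le c (mem_filter.mpr ⟨hc, rfl⟩) c'
        (mem_filter.mpr ⟨hc', e.symm⟩))] at hs
    refine ⟨S.image (· % N), fun v hv => ?_, card_image_le.trans hk.le, ?_⟩
    · obtain ⟨c, -, rfl⟩ := mem_image.mp hv
      exact mem_range.mpr (Nat.mod_lt _ hN)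
    · refine le_trans (by omega : s ≤ ((range E).filter fun e =>
        ∃ c ∈ S, memb A U e (c % N) = true).card) (card_le_card fun e he => ?_)
      obtain ⟨he1, c, hc, hd⟩ := mem_filter.mp he
      exact mem_filter.mpr ⟨he1, c % N, mem_image_of_mem _ hc, hd⟩
  · rintro ⟨D, hD, hk, hd⟩
    let v : ℕ → ℕ := fun j => D.toList.getD j 0
    have hv : ∀ j, v j < N := by
      intro j
      by_cases hj : j < D.toList.length
      · have : v j ∈ D := by
          simp only [v, List.getD_eq_getElem _ _ hj]
          exact mem_toList.mp (List.getElem_mem hj)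
        exact mem_range.mp (hD this)
      · simp only [v, List.getD_eq_default _ _ (not_lt.mp hj)]
        exact hN
    have hvs : ∀ b ∈ D, ∃ j < k, v j = b := by
      intro b hb
      obtain ⟨j, hj, e⟩ := List.getElem_of_mem (mem_toList.mpr hb)
      refine ⟨j, ?_, by simp only [v, List.getD_eq_getElem _ _ hj, e]⟩
      rw [length_toList] at hj
      omega
    have hq : ∀ j, (v j + N * j) / N = j := fun j => by
      rw [Nat.add_mul_div_left _ _ hN, Nat.div_eq_of_lt (hv j), zero_add]
    have hr : ∀ j, (v j + N * j) % N = v j := fun j => by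
      rw [Nat.add_mul_mod_self_left, Nat.mod_eq_of_lt (hv j)]
    set S := (range k).image fun j => v j + N * j with hSd
    have hS : S ⊆ range (k * N) := by
      intro c hc
      obtain ⟨j, hj, rfl⟩ := mem_image.mp hc
      have := hv j
      have := mem_range.mp hj
      exact mem_range.mpr (by nlinarith)
    have hSk : S.card = k := by
      rw [hSd, card_image_of_injective _ (fun a b e => by rw [← hq a, ← hq b, e]), card_range]
    refine ⟨S, hS, hSk, ?_⟩
    rw [free_rowsD A U hM h0 h1 h2 hS, ← hNd, ← hEd]
    have h3 := cross_eq hN hS hSk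
    rw [← hF, sum_eq_zero] at h3
    · have h4 : cross N k S = F0 := by omega
      rw [h4, add_comm, card_first _
        (fun c hc => (Nat.div_lt_iff_lt_mul hN).mpr (mem_range.mp (hS hc)))
        (fun j hj => ⟨_, mem_image_of_mem _ (mem_range.mpr hj), hq j⟩) (fun c hc c' hc' e => by
          obtain ⟨j, -, rfl⟩ := mem_image.mp hc
          obtain ⟨j', -, rfl⟩ := mem_image.mp hc'
          rw [hq, hq] at e
          rw [e])]
      refine Nat.add_le_add_right (hd.trans (card_le_card fun e he => ?_)) _
      obtain ⟨he1, b, hb, hm⟩ := mem_filter.mp he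
      obtain ⟨j, hj, rfl⟩ := hvs b hb
      exact mem_filter.mpr ⟨he1, _, mem_image_of_mem _ (mem_range.mpr hj), by rwa [hr]⟩
    · intro j hj
      have : (S.filter fun c => c / N = j) = {v j + N * j} := by
        ext c
        simp only [hSd, mem_filter, mem_image, mem_singleton]
        constructor
        · rintro ⟨⟨i, -, rfl⟩, e⟩
          rw [hq] at e
          rw [e]
        · rintro rfl
          exact ⟨⟨j, hj, rfl⟩, hq j⟩
      rw [this]
      simp

section
variable {α : Type} [N487b59b3 α]

theorem rowsD_pt {A : α → List (List ℕ)} {U L : α → List ℕ} {k : α → ℕ} (hA : PT A) (hU : PT U)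
    (hL : PT L) (hk : PT k) : PT (fun x => rowsD (A x) (U x) (L x) (k x)) := by
  unfold rowsD lrow memb; fun_prop

/-- The reduction from maximum coverage. -/
def redD (g : List (List Bool) × ℕ → Bool) (Ls : List (List ℕ)) (k V s m z : ℕ)
    (L : List ℕ) : Bool :=
  decide (s ≤ Ls.length) && g (matL L Ls.length m (FS Ls V k z), Ls.length - s)

theorem redD_pt {g : List (List Bool) × ℕ → Bool} (hg : PT g) {Ls : α → List (List ℕ)}
    {k V s m z : α → ℕ} {L : α → List ℕ} (hLs : PT Ls) (hk : PT k) (hV : PT V) (hs : PT s)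
    (hm : PT m) (hz : PT z) (hL : PT L) :
    PT (fun x => redD g (Ls x) (k x) (V x) (s x) (m x) (z x) (L x)) := by
  unfold redD
  refine PT.and (by fun_prop) (hg.comp' (PT.pair ?_ (by fun_prop)))
  refine matL_pt hL (by fun_prop) hm ?_
  unfold FS; fun_prop

theorem redD_iff {z : ℕ → ℕ} {g : List (List Bool) × ℕ → Bool} (hg : Dec z g)
    {Ls : List (List ℕ)} {k V s m : ℕ} (h1 : k ≤ z m) (h2 : V + z m ≤ m) (h3 : 0 < s) :
    redD g Ls k V s m (z m) (List.range (Ls.length + m)) = true ↔
      ∃ S ⊆ range V, S.card = k ∧ s ≤ free Ls S := by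
  rw [← sel_FS h1 h2 h3, redD, Bool.and_eq_true, decide_eq_true_eq]
  refine and_congr_right fun hs => ?_
  rw [matL_range (by omega) (by omega), hg _ _ _ _ (by omega) (Nat.sub_le _ _)]

end

/-- The algorithm for maximum coverage, `k` being at most the number of sets. -/
def algD (g : List (List Bool) × ℕ → Bool) (N E s k m : ℕ) (Ls : List (List ℕ)) : Bool :=
  s == 0 || (N != 0 && redD g Ls k (k * N)
    ((k * E + 1) * ((k * (N - 1)) ^ 2 - k * (N - 1) ^ 2) + s) m (zq g m)
    (List.range (Ls.length + m)))

theorem maxCov_min (p : List (List ℕ) × ℕ) (k : ℕ) : MaxCov p (min k p.1.length) ↔ MaxCov p k := by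
  constructor
  · rintro ⟨D, h1, h2, h3⟩
    exact ⟨D, h1, h2.trans (min_le_left _ _), h3⟩
  · rintro ⟨D, h1, h2, h3⟩
    exact ⟨D, h1, le_min h2 (by simpa using card_le_card h1), h3⟩

theorem fpt_cov {z : ℕ → ℕ} (hz : ∀ m, 2 * z m ≤ m) (he : Eff z) (h : InP z) : FPT MaxCov := by
  obtain ⟨g, hg, hd⟩ := h
  rw [dec_iff] at hd
  have hg' := PT.ofIsPolyTime hg
  have hz' : ∀ m, z m ≤ m := fun m => by have := hz m; omega
  obtain ⟨P, hP, hex, hPw⟩ := he.test
  refine fpt_of hP hex
    (A := fun s => algD g s.1.1.1.length s.1.1.1.flatten.dedup.length s.1.1.2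
      (min s.1.2 s.1.1.1.length) (max s.2.length (2 * (s.1.1.1.length * s.1.1.1.length)))
      (rowsD s.1.1.1 s.1.1.1.flatten.dedup (List.range (s.1.1.1.length * s.1.1.1.length +
        s.1.1.1.length * s.1.1.1.flatten.dedup.length + 1)) (min s.1.2 s.1.1.1.length))) ?_ ?_
  · have h1 : PT (fun s : ((List (List ℕ) × ℕ) × ℕ) × List Bool =>
        rowsD s.1.1.1 s.1.1.1.flatten.dedup (List.range (s.1.1.1.length * s.1.1.1.length +
        s.1.1.1.length * s.1.1.1.flatten.dedup.length + 1)) (min s.1.2 s.1.1.1.length)) :=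
      rowsD_pt (by fun_prop) (by fun_prop) (by fun_prop) (by fun_prop)
    unfold algD
    exact PT.or (by fun_prop) (PT.and (by fun_prop) (redD_pt hg' h1 (by fun_prop) (by fun_prop)
      (by fun_prop) (by fun_prop) (zq_pt hg' (by fun_prop) (by fun_prop)) (PT.range
        (PT.add h1.length (by fun_prop)) (PB.add (PB.length h1) (by fun_prop)))))
  · rintro ⟨A, s⟩ k μ hμ
    simp only [List.length_replicate]
    rcases Nat.eq_zero_or_pos s with rfl | hs
    · exact ⟨fun _ => ⟨∅, by simp, by simp, by simp⟩, fun _ => rfl⟩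
    rcases Nat.eq_zero_or_pos A.length with hN | hN
    · obtain rfl := List.length_eq_zero_iff.mp hN
      refine ⟨fun h => ?_, ?_⟩
      · simp [algD, hs.ne'] at h
      · rintro ⟨D, h1, -, h2⟩
        obtain rfl : D = ∅ := by simpa using h1
        simp [hs.ne'] at h2
    · have e1 : (s == 0) = false := by simpa using hs.ne'
      have e2 : (A.length != 0) = true := by simpa using hN.ne'
      have h1 : min k A.length ≤ A.length := min_le_right _ _
      have h2 : min k A.length * A.length ≤ A.length * A.length := Nat.mul_le_mul_right _ h1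
      have h3 : A.length ≤ A.length * A.length := Nat.le_mul_of_pos_left _ hN
      have h4 := hz (max μ (2 * (A.length * A.length)))
      have h5 := le_max_right μ (2 * (A.length * A.length))
      have h6 : min k A.length * A.flatten.dedup.length ≤ A.length * A.flatten.dedup.length :=
        Nat.mul_le_mul_right _ h1
      have h7 : A.flatten.dedup.length ≤ A.length * A.flatten.dedup.length :=
        Nat.le_mul_of_pos_left _ hN
      rw [algD, e1, e2, Bool.false_or, Bool.true_and, zq_eq hd (hz' _), redD_iff hd
        ((min_le_left _ _).trans (hPw _ _ _ hμ (le_max_left _ _))) (by omega) (by omega),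
        cov_iff A _ (by omega) (by omega) (by omega) (by omega) hN, ← maxCov_min]
      simp only [card_cover]
      rfl

end Pool.Agent.Lib.MP_8eff38_lc
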