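import Mathlib
import Pool.Agent.Lib.MP_8eff38_lc.FptDom

set_option autoImplicit false

namespace Pool.Agent.Lib.MP_8eff38_lc

open Pool.Agent.Shared.PolyTime Finset

/-- The graph on a list of vertices. -/
def graph {β : Type} (VL : List β) (adj : β → β → Bool) : List (List Bool) :=
  VL.map fun u => VL.map (adj u)

theorem graph_entry {β : Type} (VL : List β) (adj : β → β → Bool) {a b : ℕ} (ha : a < VL.length)
    (hb : b < VL.length) : ((graph VL adj).getD a []).getD b false = adj VL[a] VL[b] := by
  simp [graph, ha, hb]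

theorem clique_graph {β : Type} (VL : List β) (adj : β → β → Bool) (κ : β → ℕ) (K : ℕ) (d : β)
    (h1 : ∀ u ∈ VL, κ u < K) (h2 : ∀ u v, adj u v = true → κ u ≠ κ v) :
    Clique (graph VL adj) K ↔ ∃ f : ℕ → β, (∀ j < K, f j ∈ VL ∧ κ (f j) = j) ∧
      ∀ j < K, ∀ j' < K, j ≠ j' → adj (f j) (f j') = true := by
  have hlen : (graph VL adj).length = VL.length := by simp [graph]
  unfold Clique
  rw [hlen]
  constructor
  · rintro ⟨U, hU, hk, h⟩
    have hlt : ∀ a ∈ U, a < VL.length := fun a ha => mem_range.mp (hU ha)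
    have hget : ∀ a (ha : a ∈ U), VL.getD a d = VL[a]'(hlt a ha) := fun a ha =>
      List.getD_eq_getElem _ _ _
    have hadj : ∀ a ∈ U, ∀ b ∈ U, a ≠ b → adj (VL.getD a d) (VL.getD b d) = true := by
      intro a ha b hb hab
      rw [hget a ha, hget b hb, ← graph_entry VL adj (hlt a ha) (hlt b hb)]
      exact (h a ha b hb hab).1
    have hmem : ∀ a ∈ U, VL.getD a d ∈ VL := fun a ha => by
      rw [hget a ha]; exact List.getElem_mem _
    have hsurj := surjOn_of_injOn_of_card_le (s := U) (t := range K)
      (fun a => κ (VL.getD a d)) (fun a ha => mem_range.mpr (h1 _ (hmem a ha)))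
      (fun a ha b hb e => by
        by_contra hab
        exact h2 _ _ (hadj a ha b hb hab) e) (by rw [card_range, hk])
    have hex : ∀ j, ∃ a, j < K → a ∈ U ∧ κ (VL.getD a d) = j := by
      intro j
      by_cases hj : j < K
      · obtain ⟨a, ha, e⟩ := hsurj (show j ∈ (range K : Set ℕ) from mem_coe.mpr (mem_range.mpr hj))
        exact ⟨a, fun _ => ⟨ha, e⟩⟩
      · exact ⟨0, fun h => absurd h hj⟩
    choose φ hφ using hex
    refine ⟨fun j => VL.getD (φ j) d, fun j hj => ⟨hmem _ (hφ j hj).1, (hφ j hj).2⟩,
      fun j hj j' hj' hne => hadj _ (hφ j hj).1 _ (hφ j' hj').1 fun e => hne ?_⟩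
    rw [← (hφ j hj).2, ← (hφ j' hj').2, e]
  · rintro ⟨f, hf, h⟩
    have hex : ∀ j, ∃ a, j < K → ∃ ha : a < VL.length, VL[a] = f j := by
      intro j
      by_cases hj : j < K
      · obtain ⟨a, ha, e⟩ := List.getElem_of_mem (hf j hj).1
        exact ⟨a, fun _ => ⟨ha, e⟩⟩
      · exact ⟨0, fun h => absurd h hj⟩
    choose φ hφ using hex
    refine ⟨(range K).image φ, fun a ha => ?_, ?_, fun a ha b hb hab => ?_⟩
    · obtain ⟨j, hj, rfl⟩ := mem_image.mp ha
      exact mem_range.mpr (hφ j (mem_range.mp hj)).1
    · rw [card_image_of_injOn, card_range]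
      intro j hj j' hj' e
      obtain ⟨a1, e1⟩ := hφ j (mem_range.mp hj)
      obtain ⟨a2, e2⟩ := hφ j' (mem_range.mp hj')
      rw [← (hf j (mem_range.mp hj)).2, ← (hf j' (mem_range.mp hj')).2, ← e1, ← e2]
      simp only [e]
    · obtain ⟨j, hj, rfl⟩ := mem_image.mp ha
      obtain ⟨j', hj', rfl⟩ := mem_image.mp hb
      obtain ⟨a1, e1⟩ := hφ j (mem_range.mp hj)
      obtain ⟨a2, e2⟩ := hφ j' (mem_range.mp hj')
      have hne : j ≠ j' := fun e => hab (by rw [e])
      constructor
      · rw [graph_entry VL adj a1 a2, e1, e2]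
        exact h j (mem_range.mp hj) j' (mem_range.mp hj') hne
      · rw [graph_entry VL adj a2 a1, e1, e2]
        exact h j' (mem_range.mp hj') j (mem_range.mp hj) hne.symm

/-- The zero columns of a row. -/
def zs (L : List ℕ) (r : List Bool) : List ℕ := L.filter fun c => !r.getD c true

/-- Vertices: position in the chain, partial sum, row, and code of the placement of its zeros. -/
abbrev Vx := ℕ × ℕ × List Bool × ℕ

/-- The column placed at position `d`. -/
def col (L : List ℕ) (t : ℕ) (u : Vx) (d : ℕ) : ℕ :=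
  (zs L u.2.2.1).getD (u.2.2.2 / (t + 1) ^ min d L.length % (t + 1)) L.length

/-- Admissible vertices. -/
def valid (R : List (List Bool)) (L : List ℕ) (t K s : ℕ) (u : Vx) : Bool :=
  ((zs L u.2.2.1).all fun c => (L.take t).any fun d => col L t u d == c) &&
    (u.1 != 0 || u.2.1 == 0) && (u.1 + 1 != K || decide (s ≤ u.2.1 + R.count u.2.2.1))

/-- Compatible vertices. -/
def adjv (R : List (List Bool)) (L : List ℕ) (t : ℕ) (u v : Vx) : Bool :=
  u.1 != v.1 && (u.2.2.1 == [] || u.2.2.1 != v.2.2.1) &&
    ((L.take t).all fun d =>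
      col L t u d == L.length || col L t v d == L.length || col L t u d == col L t v d) &&
    (u.1 + 1 != v.1 || v.2.1 == u.2.1 + R.count u.2.2.1)

/-- The list of vertices. -/
def verts (R : List (List Bool)) (L : List ℕ) (t K P s : ℕ) : List Vx :=
  ((L.take K).product ((List.range (R.length + 1)).product (([] :: R).product (L.take P)))).filter
    (valid R L t K s)

section
variable {α : Type} [N487b59b3 α]

@[fun_prop] theorem zs_pt {L : α → List ℕ} {r : α → List Bool} (hL : PT L) (hr : PT r) :
    PT (fun x => zs (L x) (r x)) := by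
  unfold zs; fun_prop

@[fun_prop] theorem col_pt {L : α → List ℕ} {t d : α → ℕ} {u : α → Vx} (hL : PT L) (ht : PT t)
    (hu : PT u) (hd : PT d) : PT (fun x => col (L x) (t x) (u x) (d x)) := by
  unfold col; fun_prop

@[fun_prop] theorem valid_pt {R : α → List (List Bool)} {L : α → List ℕ} {t K s : α → ℕ}
    {u : α → Vx} (hR : PT R) (hL : PT L) (ht : PT t) (hK : PT K) (hs : PT s) (hu : PT u) :
    PT (fun x => valid (R x) (L x) (t x) (K x) (s x) (u x)) := by
  unfold valid; fun_prop

@[fun_prop] theorem adjv_pt {R : α → List (List Bool)} {L : α → List ℕ} {t : α → ℕ}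
    {u v : α → Vx} (hR : PT R) (hL : PT L) (ht : PT t) (hu : PT u) (hv : PT v) :
    PT (fun x => adjv (R x) (L x) (t x) (u x) (v x)) := by
  unfold adjv; fun_prop

@[fun_prop] theorem verts_pt {R : α → List (List Bool)} {L : α → List ℕ} {t K P s : α → ℕ}
    (hR : PT R) (hL : PT L) (ht : PT t) (hK : PT K) (hP : PT P) (hs : PT s) :
    PT (fun x => verts (R x) (L x) (t x) (K x) (P x) (s x)) := by
  unfold verts
  exact PT.filter (h := fun x u => valid (R x) (L x) (t x) (K x) (s x) u) (by fun_prop)
    (by fun_prop)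

theorem graph_pt {R : α → List (List Bool)} {L : α → List ℕ} {t : α → ℕ} {VL : α → List Vx}
    (hR : PT R) (hL : PT L) (ht : PT t) (hV : PT VL) :
    PT (fun x => graph (VL x) (adjv (R x) (L x) (t x))) := by
  unfold graph
  exact PT.map (h := fun x u => (VL x).map (adjv (R x) (L x) (t x) u)) hV
    (PT.map (h := fun (p : α × Vx) v => adjv (R p.1) (L p.1) (t p.1) p.2 v) (by fun_prop)
      (by fun_prop))

end

theorem mem_zs {m c : ℕ} {r : List Bool} :
    c ∈ zs (List.range m) r ↔ c < m ∧ r.getD c true = false := by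
  simp only [zs, List.mem_filter, List.mem_range, Bool.not_eq_true']

theorem nodup_zs (m : ℕ) (r : List Bool) : (zs (List.range m) r).Nodup :=
  List.nodup_range.filter _

theorem eq_of_zs {m : ℕ} {r r' : List Bool} (h : r.length = m) (h' : r'.length = m)
    (e : ∀ c, c ∈ zs (List.range m) r ↔ c ∈ zs (List.range m) r') : r = r' := by
  apply List.ext_getElem (h.trans h'.symm)
  intro i h1 h2
  have := e i
  rw [mem_zs, mem_zs, List.getD_eq_getElem _ _ h1, List.getD_eq_getElem _ _ h2] at this
  have h3 : i < m := h ▸ h1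
  simp only [h3, true_and] at this
  revert this
  cases r[i] <;> cases r'[i] <;> simp

theorem exists_digits (t : ℕ) (δ : ℕ → ℕ) (hδ : ∀ d, δ d ≤ t) :
    ∃ p < (t + 1) ^ t, ∀ d < t, p / (t + 1) ^ d % (t + 1) = δ d := by
  let f : Fin t → Fin (t + 1) := fun d => ⟨δ d, Nat.lt_succ_of_le (hδ d)⟩
  refine ⟨(finFunctionFinEquiv f : ℕ), (finFunctionFinEquiv f).2, fun d hd => ?_⟩
  have := finFunctionFinEquiv_symm_apply_val (finFunctionFinEquiv f) ⟨d, hd⟩
  rw [Equiv.symm_apply_apply] at this
  exact this.symm

theorem sum_count_eq (R : List (List Bool)) (p : List Bool → Bool) :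
    ∑ r ∈ (R.filter p).toFinset, R.count r = R.countP p := by
  rw [List.countP_eq_length_filter, ← List.sum_toFinset_count_eq_length]
  refine sum_congr rfl fun r hr => ?_
  rw [← List.count_filter (l := R) (List.mem_filter.mp (List.mem_toFinset.mp hr)).2]
  congr 1
  exact lawful_beq_subsingleton _ _

theorem sum_getD (l : List (List Bool)) (w : List Bool → ℕ) (hw : w [] = 0) (K : ℕ) :
    ∑ j ∈ range K, w (l.getD j []) = ((l.take K).map w).sum := by
  induction K with
  | zero => simp
  | succ K ih =>
    rw [sum_range_succ, ih, List.take_add_one, List.map_append, List.sum_append]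
    congr 1
    by_cases h : K < l.length
    · simp [h]
    · simp [List.getElem?_eq_none (not_lt.mp h), hw]

theorem up_iff (R : List (List Bool)) {m t s : ℕ} (hR : ∀ r ∈ R, r.length = m) (ht : t ≤ m)
    (hK : 2 ^ t ≤ m) (hP : (t + 1) ^ t ≤ m) :
    Clique (graph (verts R (List.range m) t (2 ^ t) ((t + 1) ^ t) s) (adjv R (List.range m) t))
      (2 ^ t) ↔ ∃ T ⊆ range m, T.card ≤ t ∧
        s ≤ R.countP fun r => (zs (List.range m) r).all fun c => decide (c ∈ T) := by
  have hK0 : 0 < 2 ^ t := by positivity
  have hnil : R.count [] = 0 := List.count_eq_zero.mpr fun h => by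
    have := hR _ h
    simp only [List.length_nil] at this
    omega
  have hmem : ∀ u : Vx, u ∈ verts R (List.range m) t (2 ^ t) ((t + 1) ^ t) s ↔
      (u.1 < 2 ^ t ∧ u.2.1 ≤ R.length ∧ (u.2.2.1 = [] ∨ u.2.2.1 ∈ R) ∧ u.2.2.2 < (t + 1) ^ t) ∧
      (∀ c ∈ zs (List.range m) u.2.2.1, ∃ d < t, col (List.range m) t u d = c) ∧
      (u.1 = 0 → u.2.1 = 0) ∧ (u.1 + 1 = 2 ^ t → s ≤ u.2.1 + R.count u.2.2.1) := by
    rintro ⟨j, a, r, p⟩
    simp only [verts, valid, List.take_range, min_eq_left hK, min_eq_left hP, min_eq_left ht,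
      List.mem_filter, List.pair_mem_product, List.mem_range, List.mem_cons, Bool.and_eq_true,
      List.all_eq_true, List.any_eq_true, beq_iff_eq, Bool.or_eq_true, bne_iff_ne,
      decide_eq_true_eq, Nat.lt_succ_iff]
    tauto
  have hadj : ∀ u v : Vx, adjv R (List.range m) t u v = true ↔
      u.1 ≠ v.1 ∧ (u.2.2.1 = [] ∨ u.2.2.1 ≠ v.2.2.1) ∧
      (∀ d < t, col (List.range m) t u d = m ∨ col (List.range m) t v d = m ∨
        col (List.range m) t u d = col (List.range m) t v d) ∧
      (u.1 + 1 = v.1 → v.2.1 = u.2.1 + R.count u.2.2.1) := by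
    intro u v
    simp only [adjv, List.take_range, min_eq_left ht, List.length_range, Bool.and_eq_true,
      List.all_eq_true, List.mem_range, beq_iff_eq, Bool.or_eq_true, bne_iff_ne, or_assoc]
    tauto
  rw [clique_graph _ _ (fun u => u.1) (2 ^ t) (0, 0, [], 0) (fun u hu => ((hmem u).mp hu).1.1)
    (fun u v h => ((hadj u v).mp h).1)]
  constructor
  · rintro ⟨f, hf, h⟩
    have hf1 := fun j hj => (hmem _).mp (hf j hj).1
    have hf2 := fun j hj => (hf j hj).2
    have h' := fun j hj j' hj' hne => (hadj _ _).mp (h j hj j' hj' hne)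
    have hex : ∀ d, ∃ c, d < t → ∀ j < 2 ^ t, col (List.range m) t (f j) d = m ∨
        col (List.range m) t (f j) d = c := by
      intro d
      by_cases hd : ∃ j < 2 ^ t, col (List.range m) t (f j) d ≠ m
      · obtain ⟨j0, hj0, hne⟩ := hd
        refine ⟨col (List.range m) t (f j0) d, fun hdt j hj => ?_⟩
        by_cases e : j = j0
        · exact Or.inr (by rw [e])
        · rcases (h' j hj j0 hj0 e).2.2.1 d hdt with h1 | h1 | h1
          · exact Or.inl h1
          · exact absurd h1 hne
          · exact Or.inr h1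
      · push Not at hd
        exact ⟨0, fun _ j hj => Or.inl (hd j hj)⟩
    choose τ hτ using hex
    refine ⟨((range t).image τ) ∩ range m, inter_subset_right,
      (card_le_card inter_subset_left).trans (card_image_le.trans (card_range t).le), ?_⟩
    have hsum : ∀ j < 2 ^ t, (f j).2.1 = ∑ i ∈ range j, R.count (f i).2.2.1 := by
      intro j
      induction j with
      | zero => intro hj; simpa using (hf1 0 hj).2.2.1 (hf2 0 hj)
      | succ j ih =>
        intro hj
        rw [sum_range_succ, ← ih (by omega)]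
        exact (h' j (by omega) (j + 1) hj (by omega)).2.2.2
          (by rw [hf2 j (by omega), hf2 (j + 1) hj])
    obtain ⟨K, hKe⟩ : ∃ K, 2 ^ t = K + 1 := ⟨2 ^ t - 1, by omega⟩
    have h1 := (hf1 K (by omega)).2.2.2 (by rw [hf2 K (by omega), hKe])
    rw [hsum K (by omega), ← sum_range_succ (fun i => R.count (f i).2.2.1), ← hKe] at h1
    refine h1.trans ?_
    rw [← sum_count_eq, ← sum_filter_ne_zero,
      ← sum_image (g := fun i => (f i).2.2.1) (f := fun r => R.count r)]
    · refine sum_le_sum_of_subset fun r hr => ?_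
      obtain ⟨j, hj, rfl⟩ := mem_image.mp hr
      obtain ⟨hj1, hj2⟩ := mem_filter.mp hj
      refine List.mem_toFinset.mpr (List.mem_filter.mpr
        ⟨List.count_pos_iff.mp (Nat.pos_of_ne_zero hj2), ?_⟩)
      simp only [List.all_eq_true, decide_eq_true_eq]
      intro c hc
      have hcm := (mem_zs.mp hc).1
      obtain ⟨d, hd, e⟩ := (hf1 j (mem_range.mp hj1)).2.1 c hc
      refine mem_inter.mpr ⟨mem_image.mpr ⟨d, mem_range.mpr hd, ?_⟩, mem_range.mpr hcm⟩
      rcases hτ d hd j (mem_range.mp hj1) with h2 | h2 <;> omega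
    · intro j hj j' hj' e
      obtain ⟨hj1, hj2⟩ := mem_filter.mp hj
      by_contra hne
      rcases (h' j (mem_range.mp hj1) j' (mem_range.mp (mem_filter.mp hj').1) hne).2.1 with h2 | h2
      · exact hj2 (by rw [h2, hnil])
      · exact h2 e
  · rintro ⟨T, hT, htc, hs⟩
    rw [← sum_count_eq] at hs
    set D := (R.filter fun r => (zs (List.range m) r).all fun c => decide (c ∈ T)).toFinset with hD
    have hDm : ∀ r ∈ D, r ∈ R ∧ ∀ c ∈ zs (List.range m) r, c ∈ T := by
      intro r hr
      have := List.mem_filter.mp (List.mem_toFinset.mp hr)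
      exact ⟨this.1, by simpa only [List.all_eq_true, decide_eq_true_eq] using this.2⟩
    have hDc : D.card ≤ 2 ^ t := by
      refine le_trans ?_ (Nat.pow_le_pow_right (by norm_num) htc)
      rw [← card_powerset]
      refine card_le_card_of_injOn (fun r => (zs (List.range m) r).toFinset) (fun r hr => ?_)
        (fun r hr r' hr' e => ?_)
      · exact mem_powerset.mpr fun c hc => (hDm r hr).2 c (List.mem_toFinset.mp hc)
      · refine eq_of_zs (hR r (hDm r hr).1) (hR r' (hDm r' hr').1) fun c => ?_
        rw [← List.mem_toFinset, ← List.mem_toFinset]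
        exact iff_of_eq (congrArg (c ∈ ·) e)
    let r : ℕ → List Bool := fun j => D.toList.getD j []
    have hr : ∀ j, r j = [] ∨ r j ∈ D := by
      intro j
      by_cases hj : j < D.toList.length
      · right
        simp only [r, List.getD_eq_getElem _ _ hj]
        exact mem_toList.mp (List.getElem_mem hj)
      · left
        simp only [r, List.getD_eq_default _ _ (not_lt.mp hj)]
    have hrz : ∀ j, ∀ c ∈ zs (List.range m) (r j), c ∈ T := by
      intro j c hc
      rcases hr j with h | h
      · rw [h, mem_zs] at hc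
        simp at hc
      · exact (hDm _ h).2 c hc
    have hzl : ∀ j, (zs (List.range m) (r j)).length ≤ t := by
      intro j
      rw [← List.toFinset_card_of_nodup (nodup_zs m _)]
      exact (card_le_card fun c hc => hrz j c (List.mem_toFinset.mp hc)).trans htc
    let τ : ℕ → ℕ := fun d => T.toList.getD d m
    have hp : ∀ j, ∃ p < (t + 1) ^ t, ∀ d < t,
        p / (t + 1) ^ d % (t + 1) = (zs (List.range m) (r j)).idxOf (τ d) := fun j =>
      exists_digits t _ fun d => List.idxOf_le_length.trans (hzl j)
    choose p hp1 hp2 using hp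
    let a : ℕ → ℕ := fun j => ∑ i ∈ range j, R.count (r i)
    have hcol : ∀ j, ∀ d < t, col (List.range m) t (j, a j, r j, p j) d =
        if τ d ∈ zs (List.range m) (r j) then τ d else m := by
      intro j d hd
      simp only [col, List.length_range, min_eq_left (hd.le.trans ht), hp2 j d hd]
      split_ifs with h
      · rw [List.getD_eq_getElem _ _ (List.idxOf_lt_length_iff.mpr h), List.getElem_idxOf]
      · rw [List.getD_eq_default _ _ (List.idxOf_eq_length_iff.mpr h).ge]
    have htot : a (2 ^ t) = ∑ r ∈ D, R.count r := by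
      simp only [a, r]
      rw [sum_getD _ (fun r => R.count r) hnil, List.take_of_length_le (by rwa [length_toList]),
        sum_map_toList]
    have hle : ∀ j ≤ 2 ^ t, a j ≤ R.length := by
      intro j hj
      refine le_trans (sum_le_sum_of_subset (range_subset_range.mpr hj)) ?_
      change a (2 ^ t) ≤ _
      rw [htot, hD, sum_count_eq]
      exact List.countP_le_length
    refine ⟨fun j => (j, a j, r j, p j), fun j hj => ⟨(hmem _).mpr
      ⟨⟨hj, hle j hj.le, (hr j).imp id fun h => (hDm _ h).1, hp1 j⟩, fun c hc => ?_, ?_, ?_⟩, rfl⟩,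
      fun j hj j' hj' hne => (hadj _ _).mpr ⟨hne, ?_, fun d hd => ?_, ?_⟩⟩
    · obtain ⟨d, hd, e⟩ := List.getElem_of_mem (mem_toList.mpr (hrz j c hc))
      have hτ : τ d = c := by simp only [τ, List.getD_eq_getElem _ _ hd, e]
      rw [length_toList] at hd
      refine ⟨d, by omega, ?_⟩
      rw [hcol j d (by omega), hτ, if_pos hc]
    · rintro rfl
      simp [a]
    · intro e
      change j + 1 = 2 ^ t at e
      change s ≤ a j + R.count (r j)
      rw [← htot, ← e] at hs
      simpa only [a, sum_range_succ] using hs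
    · change r j = [] ∨ r j ≠ r j'
      by_cases h1 : j < D.toList.length
      · by_cases h2 : j' < D.toList.length
        · right
          simp only [r, List.getD_eq_getElem _ _ h1, List.getD_eq_getElem _ _ h2]
          exact fun e => hne ((D.nodup_toList.getElem_inj_iff).mp e)
        · by_cases h3 : r j = []
          · exact Or.inl h3
          · right
            simp only [r, List.getD_eq_default _ _ (not_lt.mp h2)]
            exact h3
      · left
        simp only [r, List.getD_eq_default _ _ (not_lt.mp h1)]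
    · rw [hcol j d hd, hcol j' d hd]
      split_ifs <;> simp
    · intro e
      change j + 1 = j' at e
      change a j' = a j + R.count (r j)
      simp only [a, ← e, sum_range_succ]

theorem sel_iff_up {n m t b : ℕ} (F : ℕ → ℕ → Bool) (ht : t ≤ m) (hb : b ≤ n) :
    Sel (m - t) n m F b ↔ ∃ T ⊆ range m, T.card ≤ t ∧
      n - b ≤ (mat n m F).countP fun r => (zs (List.range m) r).all fun c => decide (c ∈ T) := by
  have key : ∀ T : Finset ℕ,
      ((mat n m F).countP fun r => (zs (List.range m) r).all fun c => decide (c ∈ T)) +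
        ((range n).filter fun i => ∃ j ∈ range m \ T, F i j = false).card = n := by
    intro T
    rw [mat, List.countP_map, countP_range]
    have := card_filter_add_card_filter_not (s := range n)
      (fun i => ∃ j ∈ range m \ T, F i j = false)
    rw [card_range, add_comm] at this
    refine Eq.trans ?_ this
    congr 2
    refine filter_congr fun i _ => ?_
    simp only [Function.comp, List.all_eq_true, decide_eq_true_eq, mem_zs, mem_sdiff, mem_range,
      not_exists, not_and]
    constructor
    · intro h c hc hF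
      exact hc.2 (h c ⟨hc.1, by simpa [hc.1] using hF⟩)
    · intro h c hc
      by_contra hT
      exact h c ⟨hc.1, hT⟩ (by simpa [hc.1] using hc.2)
  constructor
  · rintro ⟨J, hJ, h1, h2⟩
    refine ⟨range m \ J, sdiff_subset, ?_, ?_⟩
    · rw [card_sdiff_of_subset hJ, card_range]; omega
    · have := key (range m \ J)
      rw [Finset.sdiff_sdiff_eq_self hJ] at this
      omega
  · rintro ⟨T, hT, h1, h2⟩
    refine ⟨range m \ T, sdiff_subset, ?_, ?_⟩
    · rw [card_sdiff_of_subset hT, card_range]; omega
    · have := key T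
      omega

end Pool.Agent.Lib.MP_8eff38_lc
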