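import Mathlib
import Pool.Agent.Lib.MP_8eff38_lc.FptUp

set_option autoImplicit false

namespace Pool.Agent.Lib.MP_8eff38_lc

open Pool.Agent.Shared.PolyTime Finset

theorem card_divmod (n K : ℕ) (p : ℕ × ℕ → Prop) [DecidablePred p] :
    ((range (n * K)).filter fun e => p (e / K, e % K)).card =
      ((range n ×ˢ range K).filter p).card := by
  rcases Nat.eq_zero_or_pos K with rfl | hK
  · simp
  refine card_nbij' (fun e => (e / K, e % K)) (fun x => x.2 + K * x.1) (fun e he => ?_)
    (fun x hx => ?_) (fun e _ => Nat.mod_add_div e K) (fun x hx => ?_)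
  · obtain ⟨h1, h2⟩ := mem_filter.mp he
    exact mem_filter.mpr ⟨mem_product.mpr ⟨mem_range.mpr
      ((Nat.div_lt_iff_lt_mul hK).mpr (mem_range.mp h1)), mem_range.mpr (Nat.mod_lt _ hK)⟩, h2⟩
  · obtain ⟨h1, h2⟩ := mem_filter.mp hx
    have a1 := mem_range.mp (mem_product.mp h1).1
    have a2 := mem_range.mp (mem_product.mp h1).2
    refine mem_filter.mpr ⟨mem_range.mpr (by nlinarith), ?_⟩
    rw [Nat.add_mul_div_left _ _ hK, Nat.div_eq_of_lt a2, zero_add, Nat.add_mul_mod_self_left,
      Nat.mod_eq_of_lt a2]
    exact h2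
  · have a2 := mem_range.mp (mem_product.mp (mem_filter.mp hx).1).2
    simp only [Nat.add_mul_div_left _ _ hK, Nat.div_eq_of_lt a2, zero_add,
      Nat.add_mul_mod_self_left, Nat.mod_eq_of_lt a2]

theorem card_split (a b : ℕ) (p : ℕ → Prop) [DecidablePred p] :
    ((range (a + b)).filter p).card =
      ((range a).filter p).card + ((range b).filter fun e => p (a + e)).card := by
  rw [← Nat.count_eq_card_filter_range, ← Nat.count_eq_card_filter_range,
    ← Nat.count_eq_card_filter_range, Nat.count_add]

/-- Membership of the element `e` in the set for group `j` and column `c`. -/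
def cm (R : List (List Bool)) (K W H j c e : ℕ) : Bool :=
  if e < H then e / W == j || e / W == K + c
  else (decide (j < (e - H) % K) && !(R.getD ((e - H) / K) []).getD c true) ||
    (j == (e - H) % K && (R.getD ((e - H) / K) []).getD c true)

/-- The set system. -/
def covSets (R : List (List Bool)) (K m : ℕ) : List (List ℕ) :=
  (List.range (K * m)).map fun v =>
    (List.range ((K + m) * (R.length * K + 1) + R.length * K)).filter
      (cm R K (R.length * K + 1) ((K + m) * (R.length * K + 1)) (v / m) (v % m))

theorem covSets_pt {α : Type} [N487b59b3 α] {R : α → List (List Bool)} {K m : α → ℕ} (hR : PT R)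
    (hK : PT K) (hm : PT m) (bK : PB K) (bm : PB m) :
    PT (fun x => covSets (R x) (K x) (m x)) := by
  have h1 : PT (fun x => List.range (K x * m x)) := by fun_prop
  have h2 : PT (fun x => List.range ((K x + m x) * ((R x).length * K x + 1) +
      (R x).length * K x)) := by fun_prop
  have : ∀ L : α → List ℕ, PT L → PT (fun x => (List.range (K x * m x)).map fun v => (L x).filter
      (cm (R x) (K x) ((R x).length * K x + 1) ((K x + m x) * ((R x).length * K x + 1))
        (v / m x) (v % m x))) := by
    intro L hL
    refine PT.map (h := fun x v => (L x).filter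
      (cm (R x) (K x) ((R x).length * K x + 1) ((K x + m x) * ((R x).length * K x + 1))
        (v / m x) (v % m x))) h1 ?_
    refine PT.filter (h := fun (p : α × ℕ) e => cm (R p.1) (K p.1) ((R p.1).length * K p.1 + 1)
      ((K p.1 + m p.1) * ((R p.1).length * K p.1 + 1)) (p.2 / m p.1) (p.2 % m p.1) e)
      (by fun_prop) ?_
    unfold cm; fun_prop
  exact this _ h2

theorem cover_eq {n m K : ℕ} (F : ℕ → ℕ → Bool) (hm : 0 < m) {D : Finset ℕ}
    (hD : D ⊆ range (K * m)) :
    (D.biUnion fun v => ((covSets (mat n m F) K m).getD v []).toFinset).card +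
      (first (fun i c => !F i c) m n K D).card =
      ((D.image (· / m)).card + (D.image (· % m)).card) * (n * K + 1) + n * K := by
  have hlen : (mat n m F).length = n := by simp [mat]
  set W := n * K + 1 with hW
  set H := (K + m) * W with hH
  have h1 : (D.biUnion fun v => ((covSets (mat n m F) K m).getD v []).toFinset) =
      (range (H + n * K)).filter fun e =>
        ∃ v ∈ D, cm (mat n m F) K W H (v / m) (v % m) e = true := by
    ext e
    simp only [mem_biUnion, mem_filter, mem_range, List.mem_toFinset]
    have key : ∀ v ∈ D, (e ∈ (covSets (mat n m F) K m).getD v [] ↔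
        e < H + n * K ∧ cm (mat n m F) K W H (v / m) (v % m) e = true) := by
      intro v hv
      have := mem_range.mp (hD hv)
      rw [List.getD_eq_getElem _ _ (by simpa [covSets] using this)]
      simp only [covSets, hlen, List.getElem_map, List.getElem_range, List.mem_filter,
        List.mem_range, ← hW, ← hH]
    constructor
    · rintro ⟨v, hv, h⟩
      exact ⟨((key v hv).mp h).1, v, hv, ((key v hv).mp h).2⟩
    · rintro ⟨h, v, hv, h'⟩
      exact ⟨v, hv, (key v hv).mpr ⟨h, h'⟩⟩
  have hq : ∀ v ∈ D, v / m < K := fun v hv =>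
    (Nat.div_lt_iff_lt_mul hm).mpr (mem_range.mp (hD hv))
  set B := D.image (· / m) ∪ (D.image (· % m)).image (K + ·) with hB
  have hBc : B.card = (D.image (· / m)).card + (D.image (· % m)).card := by
    rw [hB, card_union_of_disjoint, card_image_of_injective _ (add_right_injective K)]
    rw [disjoint_left]
    intro a ha hb
    obtain ⟨v, hv, rfl⟩ := mem_image.mp ha
    obtain ⟨c, -, e⟩ := mem_image.mp hb
    have := hq v hv
    omega
  have h2 : ((range H).filter fun e =>
      ∃ v ∈ D, cm (mat n m F) K W H (v / m) (v % m) e = true).card = B.card * W := by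
    have := card_divmod (K + m) W (fun x => x.1 ∈ B)
    rw [← hH] at this
    refine Eq.trans (congrArg _ (filter_congr fun e he => ?_)) (this.trans ?_)
    · simp only [cm, if_pos (mem_range.mp he), Bool.or_eq_true, beq_iff_eq, hB, mem_union,
        mem_image]
      constructor
      · rintro ⟨v, hv, h | h⟩
        · exact Or.inl ⟨v, hv, h.symm⟩
        · exact Or.inr ⟨_, ⟨v, hv, rfl⟩, h.symm⟩
      · rintro (⟨v, hv, h⟩ | ⟨_, ⟨v, hv, rfl⟩, h⟩)
        · exact ⟨v, hv, Or.inl h.symm⟩
        · exact ⟨v, hv, Or.inr h.symm⟩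
    · conv_rhs => rw [← card_range W, ← card_product]
      congr 1
      ext x
      simp only [mem_filter, mem_product]
      refine ⟨fun h => ⟨h.2, h.1.2⟩, fun h => ⟨⟨?_, h.2⟩, h.1⟩⟩
      rcases mem_union.mp h.1 with h' | h'
      · obtain ⟨v, hv, e⟩ := mem_image.mp h'
        have := hq v hv
        exact mem_range.mpr (by omega)
      · obtain ⟨c, hc, e⟩ := mem_image.mp h'
        obtain ⟨v, -, rfl⟩ := mem_image.mp hc
        have := Nat.mod_lt v hm
        exact mem_range.mpr (by omega)
  have h3 : ((range (n * K)).filter fun e =>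
      ∃ v ∈ D, cm (mat n m F) K W H (v / m) (v % m) (H + e) = true).card +
      (first (fun i c => !F i c) m n K D).card = n * K := by
    rw [first, ← card_divmod, add_comm]
    have := card_filter_add_card_filter_not (s := range (n * K)) (fun e => ∀ c ∈ D,
      (c / m < e % K → (!F (e / K) (c % m)) = false) ∧ (c / m = e % K → (!F (e / K) (c % m)) = true))
    rw [card_range] at this
    refine Eq.trans ?_ this
    congr 2
    refine filter_congr fun e he => ?_
    have hK : 0 < K := Nat.pos_of_ne_zero (by rintro rfl; simp at he)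
    have he' : e / K < n := (Nat.div_lt_iff_lt_mul hK).mpr (mem_range.mp he)
    have hent : ∀ v, ((mat n m F).getD (e / K) []).getD (v % m) true = F (e / K) (v % m) := by
      intro v
      simp [mat, he', Nat.mod_lt v hm]
    simp only [cm, if_neg (by omega : ¬ H + e < H), Nat.add_sub_cancel_left, hent, not_forall]
    refine exists_congr fun v => ?_
    cases F (e / K) (v % m) <;> simp
  rw [h1, card_split, h2, hBc, add_assoc, h3]

theorem sel_iff_cov {n m K b : ℕ} (F : ℕ → ℕ → Bool) (hK : 0 < K) (hm : K ≤ m) (hb : b ≤ n) :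
    MaxCov (covSets (mat n m F) K m, 2 * K * (n * K + 1) + (n * K - b)) K ↔ Sel K n m F b := by
  have hm0 : 0 < m := by omega
  have hnK : n ≤ n * K := Nat.le_mul_of_pos_right _ hK
  have hlen : (covSets (mat n m F) K m).length = K * m := by simp [covSets]
  unfold MaxCov
  simp only [hlen]
  constructor
  · rintro ⟨D, hD, hk, hs⟩
    have h1 := cover_eq (n := n) F hm0 hD
    have a1 : (D.image (· / m)).card ≤ D.card := card_image_le
    have a2 : (D.image (· % m)).card ≤ D.card := card_image_le
    have a3 : 2 * K ≤ (D.image (· / m)).card + (D.image (· % m)).card := by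
      by_contra hc
      have : ((D.image (· / m)).card + (D.image (· % m)).card + 1) * (n * K + 1) ≤
          2 * K * (n * K + 1) := Nat.mul_le_mul_right _ (by omega)
      rw [add_mul _ 1] at this
      omega
    have a4 : (D.image (· / m)).card + (D.image (· % m)).card = 2 * K := by omega
    have hq : ∀ v ∈ D, v / m < K := fun v hv =>
      (Nat.div_lt_iff_lt_mul hm0).mpr (mem_range.mp (hD hv))
    have a5 : D.image (· / m) = range K := eq_of_subset_of_card_le
      (fun j hj => by
        obtain ⟨v, hv, rfl⟩ := mem_image.mp hj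
        exact mem_range.mpr (hq v hv)) (by rw [card_range]; omega)
    rw [a4, card_first _ hq (fun j hj => mem_image.mp (a5 ▸ mem_range.mpr hj))
      (fun c hc c' hc' e => injOn_of_card_image_eq (f := (· / m)) (s := D) (by omega) hc hc' e)]
      at h1
    refine ⟨D.image (· % m), fun c hc => ?_, by omega, ?_⟩
    · obtain ⟨v, -, rfl⟩ := mem_image.mp hc
      exact mem_range.mpr (Nat.mod_lt _ hm0)
    · refine le_trans (card_le_card (t := (range n).filter fun e =>
        ∃ c ∈ D, (!F e (c % m)) = true) fun i hi => ?_) (by omega)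
      obtain ⟨hi1, c, hc, hF⟩ := mem_filter.mp hi
      obtain ⟨v, hv, rfl⟩ := mem_image.mp hc
      exact mem_filter.mpr ⟨hi1, v, hv, by simpa using hF⟩
  · rintro ⟨J, hJ, h1, h2⟩
    obtain ⟨J', hJ', hc⟩ := exists_subset_card_eq h1
    let v : ℕ → ℕ := fun j => J'.toList.getD j 0
    have hvm : ∀ j < K, v j ∈ J' := by
      intro j hj
      have hj' : j < J'.toList.length := by rwa [length_toList, hc]
      simp only [v, List.getD_eq_getElem _ _ hj']
      exact mem_toList.mp (List.getElem_mem hj')
    have hv : ∀ j < K, v j < m := fun j hj => mem_range.mp (hJ (hJ' (hvm j hj)))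
    have hvs : ∀ c ∈ J', ∃ j < K, v j = c := by
      intro c hcJ
      obtain ⟨j, hj, e⟩ := List.getElem_of_mem (mem_toList.mpr hcJ)
      refine ⟨j, ?_, by simp only [v, List.getD_eq_getElem _ _ hj, e]⟩
      rwa [length_toList, hc] at hj
    have hq : ∀ j < K, (v j + m * j) / m = j := fun j hj => by
      rw [Nat.add_mul_div_left _ _ hm0, Nat.div_eq_of_lt (hv j hj), zero_add]
    have hr : ∀ j < K, (v j + m * j) % m = v j := fun j hj => by
      rw [Nat.add_mul_mod_self_left, Nat.mod_eq_of_lt (hv j hj)]
    set D := (range K).image fun j => v j + m * j with hDd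
    have hD : D ⊆ range (K * m) := by
      intro c hc
      obtain ⟨j, hj, rfl⟩ := mem_image.mp hc
      have := mem_range.mp hj
      have := hv j this
      exact mem_range.mpr (by nlinarith)
    have hDk : D.card ≤ K := card_image_le.trans (card_range K).le
    refine ⟨D, hD, hDk, ?_⟩
    have h3 := cover_eq (n := n) F hm0 hD
    have a1 : K ≤ (D.image (· / m)).card := by
      refine le_trans (card_range K).ge (card_le_card fun j hj => ?_)
      exact mem_image.mpr ⟨_, mem_image_of_mem _ hj, hq j (mem_range.mp hj)⟩
    have a2 : K ≤ (D.image (· % m)).card := by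
      refine le_trans hc.ge (card_le_card fun c hcJ => ?_)
      obtain ⟨j, hj, rfl⟩ := hvs c hcJ
      exact mem_image.mpr ⟨_, mem_image_of_mem _ (mem_range.mpr hj), hr j hj⟩
    have a3 : 2 * K * (n * K + 1) ≤
        ((D.image (· / m)).card + (D.image (· % m)).card) * (n * K + 1) :=
      Nat.mul_le_mul_right _ (by omega)
    rw [card_first _ (fun c hc => (Nat.div_lt_iff_lt_mul hm0).mpr (mem_range.mp (hD hc)))
      (fun j hj => ⟨_, mem_image_of_mem _ (mem_range.mpr hj), hq j hj⟩) (fun c hc c' hc' e => by
        obtain ⟨j, hj, rfl⟩ := mem_image.mp hc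
        obtain ⟨j', hj', rfl⟩ := mem_image.mp hc'
        rw [hq j (mem_range.mp hj), hq j' (mem_range.mp hj')] at e
        rw [e])] at h3
    have a4 : ((range n).filter fun e => ∃ c ∈ D, (!F e (c % m)) = true).card ≤ b := by
      refine le_trans (card_le_card fun i hi => ?_) h2
      obtain ⟨hi1, c, hcD, hF⟩ := mem_filter.mp hi
      obtain ⟨j, hj, rfl⟩ := mem_image.mp hcD
      rw [hr j (mem_range.mp hj)] at hF
      exact mem_filter.mpr ⟨hi1, _, hJ' (hvm j (mem_range.mp hj)), by simpa using hF⟩
    omega

end Pool.Agent.Lib.MP_8eff38_lc
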