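import Mathlib
import Pool.Agent.Lib.MP_8eff38_lc.FptCov

set_option autoImplicit false

namespace Pool.Agent.Lib.MP_8eff38_lc

open Pool.Agent.Shared.PolyTime Turing

/-- The number `t` is small enough for the number of issues given by the length of `L`. -/
def okt (run : List Bool × List Bool → Option (List Bool)) (L : List ℕ) (t : ℕ) : Bool :=
  decide (2 * t ≤ L.length) && decide (2 * 2 ^ min t L.length ≤ L.length) &&
    decide ((t + 1) ^ min t L.length ≤ L.length) &&
    L.any fun i => (run ((2 ^ min t L.length).bits, (L.take i).map fun _ => true)).elim false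
      fun b => decide (val b ≤ L.length)

theorem okt_pt {α : Type} [N487b59b3 α] {run : List Bool × List Bool → Option (List Bool)}
    (hr : PT run) {L : α → List ℕ} {t : α → ℕ} (hL : PT L) (ht : PT t) :
    PT (fun x => okt run (L x) (t x)) := by
  unfold okt; fun_prop

theorem okt_iff (run : List Bool × List Bool → Option (List Bool)) (m t : ℕ) :
    okt run (List.range m) t = true ↔ 2 * t ≤ m ∧ 2 * 2 ^ t ≤ m ∧ (t + 1) ^ t ≤ m ∧
      ∃ i < m, ∃ b, run ((2 ^ t).bits, List.replicate i true) = some b ∧ val b ≤ m := by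
  simp only [okt, List.length_range, Bool.and_eq_true, decide_eq_true_eq, and_assoc,
    List.any_eq_true, List.mem_range, List.take_range, List.map_const']
  refine and_congr_right fun h => ?_
  rw [min_eq_left (by omega : t ≤ m)]
  refine and_congr_right fun _ => and_congr_right fun _ => exists_congr fun i =>
    and_congr_right fun hi => ?_
  rw [min_eq_left hi.le]
  cases run ((2 ^ t).bits, List.replicate i true) <;> simp

theorem findGreatest_eq (P : ℕ → Bool) (n : ℕ) :
    Nat.findGreatest (fun t => P t = true) n = ((List.range (n + 1)).reverse.find? P).getD 0 := by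
  induction n with
  | zero => cases h : P 0 <;> simp [h]
  | succ n ih =>
    rw [Nat.findGreatest_succ, List.range_succ, List.reverse_append, ih]
    cases h : P (n + 1) <;> simp [h]

/-- The distance of the quota to the number of issues. -/
def tm (run : List Bool × List Bool → Option (List Bool)) (m : ℕ) : ℕ :=
  Nat.findGreatest (fun t => okt run (List.range m) t = true) m

theorem tm_pt {α : Type} [N487b59b3 α] {run : List Bool × List Bool → Option (List Bool)}
    (hr : PT run) {m : α → ℕ} (hm : PT m) (hb : PB m) : PT (fun x => tm run (m x)) := by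
  have hL : PT (fun x => List.range (m x)) := PT.range hm hb
  have hL' : PT (fun x => List.range (m x + 1)) :=
    PT.range (hm.add (PT.const 1)) (hb.add (PB.const 1))
  have : PT (fun x => ((List.range (m x + 1)).reverse.find?
      (okt run (List.range (m x)))).getD 0) :=
    PT.getD (PT.find? (h := fun x t => okt run (List.range (m x)) t) hL'.reverse
      (okt_pt hr (hL.comp' (f := fun p : α × ℕ => p.1) (by fun_prop)) (by fun_prop)))
      (PT.const _)
  exact this.of_eq fun x => (findGreatest_eq _ _).symm

theorem tm_mono (run : List Bool × List Bool → Option (List Bool)) : Monotone (tm run) := by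
  intro m m' h
  refine Nat.findGreatest_mono (fun t ht => ?_) h
  obtain ⟨h1, h2, h3, i, hi, b, h4, h5⟩ := (okt_iff run m t).mp ht
  exact (okt_iff run m' t).mpr ⟨by omega, by omega, by omega, i, by omega, b, h4, by omega⟩

theorem tm_le (run : List Bool × List Bool → Option (List Bool)) (m : ℕ) : 2 * tm run m ≤ m := by
  by_cases h : tm run m = 0
  · omega
  · exact ((okt_iff run m _).mp (Nat.findGreatest_of_ne_zero rfl h)).1

/-- A tractable problem is solved in polynomial time for a slowly growing parameter. -/
theorem slow_of_fpt {α : Type} [N487b59b3 α] {Q : α → ℕ → Prop} (h : FPT Q) :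
    ∃ (t : ℕ → ℕ) (dec : (α × ℕ) × List Bool → Bool), PT (fun l : List Bool => t l.length) ∧
      Eff t ∧ PT dec ∧ (∀ m, 2 * t m ≤ m) ∧ ∀ m, t m ≠ 0 → 2 * 2 ^ t m ≤ m ∧
        (t m + 1) ^ t m ≤ m ∧ ∀ x u, u.length = m →
          (dec ((x, 2 ^ t m), u) = true ↔ Q x (2 ^ t m)) := by
  obtain ⟨M, f, q, g, ⟨N⟩, hM⟩ := h
  obtain ⟨runM, hrM, hrunM⟩ := exists_clocked M
  obtain ⟨run, hr, hrun⟩ := exists_clocked N.toTM2ComputableAux
  have hN := outputs_of_computable N
  obtain ⟨u, hu, hul⟩ := PT.unary_poly (α := α × ℕ) q
  have ht : PT (fun l : List Bool => tm run l.length) := tm_pt hr (by fun_prop) (by fun_prop)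
  refine ⟨tm run, fun s => runM (N487b59b3.bitEncode s.1,
    (List.replicate s.2.length (u s.1)).flatten) == some [true], ht,
    eff_of_mono ht (tm_mono run) fun K => ?_, by fun_prop, tm_le run, fun m h0 => ?_⟩
  · obtain ⟨T, hT⟩ := hN (2 ^ K)
    have hpos : 0 < 2 ^ K := by positivity
    refine ⟨2 * K + 2 * 2 ^ K + (K + 1) ^ K + f (2 ^ K) + T + 1, Nat.le_findGreatest (by omega)
      ((okt_iff run _ K).mpr ⟨by omega, by omega, by omega, T, by omega, (f (2 ^ K)).bits,
        (hrun _ _ _ _ hT).1 (by simp), ?_⟩)⟩
    rw [val_bits]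
    omega
  · obtain ⟨-, h2, h3, i, -, b, h4, h5⟩ :=
      (okt_iff run m _).mp (Nat.findGreatest_of_ne_zero (m := tm run m) rfl h0)
    generalize tm run m = t at *
    obtain ⟨T, hT⟩ := hN (2 ^ t)
    rw [(hrun _ _ _ _ hT).2 b h4, val_bits] at h5
    refine ⟨h2, h3, fun x l hl => ?_⟩
    obtain ⟨e1, e2⟩ := hM x (2 ^ t)
    dsimp only
    rw [(hrunM _ _ _ _ e2).1, ← e1, enc_bool]
    · cases g (x, 2 ^ t) <;> simp
    · simp only [List.length_flatten, List.map_replicate, List.sum_replicate,
        smul_eq_mul, hul, hl]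
      exact Nat.mul_le_mul_right _ h5

theorem head_mat {n : ℕ} (hn : 0 < n) (m : ℕ) (F : ℕ → ℕ → Bool) :
    ((mat n m F).headD []).length = m := by
  obtain ⟨n, rfl⟩ := Nat.exists_eq_succ_of_ne_zero hn.ne'
  simp [mat, List.range_succ_eq_map]

/-- The clique instance. -/
def inst (R : List (List Bool)) (b m t : ℕ) : List (List Bool) × ℕ :=
  (graph (verts R (List.range m) t (2 ^ min t m) ((t + 1) ^ min t m) (R.length - b))
    (adjv R (List.range m) t), 2 ^ min t m)

theorem inP_of_clique (h : FPT Clique) : ∃ z : ℕ → ℕ, (∀ m, z m ≤ m) ∧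
    (Eff fun m => min (z m) (m - z m)) ∧ InP z := by
  obtain ⟨t, dec, ht, he, hdec, hle, hok⟩ := slow_of_fpt h
  refine ⟨fun m => m - t m, fun m => Nat.sub_le _ _,
    he.mono fun m => by have := hle m; dsimp only; omega, ?_⟩
  let A : List (List Bool) × ℕ → ℕ → Bool := fun p τ =>
    if τ = 0 then easy 0 p.1 p.2 (p.1.headD []).length (p.1.headD []).length else
      dec (inst p.1 p.2 (p.1.headD []).length τ, p.1.headD [])
  refine ⟨fun p => A p (t (p.1.headD []).length), PT.isPolyTime ?_,
    (dec_iff _ (fun p => A p (t (p.1.headD []).length))).mpr fun n m F k hn hk => ?_⟩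
  · have h1 : PT (fun p : List (List Bool) × ℕ => t (p.1.headD []).length) :=
      ht.comp' (f := fun p : List (List Bool) × ℕ => p.1.headD []) (by fun_prop)
    have h2 := lists_pt 0
    have : ∀ τ : List (List Bool) × ℕ → ℕ, PT τ →
        PT (fun p : List (List Bool) × ℕ => A p (τ p)) := by
      intro τ hτ
      have h3 : PT (fun p : List (List Bool) × ℕ => inst p.1 p.2 (p.1.headD []).length (τ p)) := by
        unfold inst
        exact PT.pair (graph_pt (by fun_prop) (by fun_prop) hτ (by fun_prop)) (by fun_prop)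
      have h4 : PT (fun p : List (List Bool) × ℕ =>
          easy 0 p.1 p.2 (p.1.headD []).length (p.1.headD []).length) := by
        unfold easy test; fun_prop
      exact PT.ite (by fun_prop) h4 (hdec.comp' (PT.pair h3 (by fun_prop)))
    exact this _ h1
  · have hm := head_mat hn m F
    simp only [hm, A]
    split_ifs with h0
    · rw [h0, Nat.sub_zero]
      exact easy_iff (by omega) F
    · obtain ⟨h2, h3, h4⟩ := hok m h0
      have h1 := hle m
      have hlen : (mat n m F).length = n := by simp [mat]
      have hrows : ∀ r ∈ mat n m F, r.length = m := by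
        intro r hr
        obtain ⟨i, -, rfl⟩ := List.mem_map.mp hr
        simp
      rw [sel_iff_up F (by omega) hk, ← up_iff _ hrows (by omega) (by omega) h3]
      simp only [inst, min_eq_left (by omega : t m ≤ m), hlen]
      exact h4 _ _ hm

theorem inP_of_cov (h : FPT MaxCov) : ∃ z : ℕ → ℕ, (∀ m, 2 * z m ≤ m) ∧ Eff z ∧ InP z := by
  obtain ⟨t, dec, ht, he, hdec, hle, hok⟩ := slow_of_fpt h
  refine ⟨fun m => if t m = 0 then 0 else 2 ^ t m, fun m => ?_, he.mono fun m => ?_, ?_⟩
  · dsimp only
    split_ifs with h0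
    · omega
    · exact (hok m h0).1
  · split_ifs with h0
    · omega
    · exact Nat.lt_two_pow_self.le
  let A : List (List Bool) × ℕ → ℕ → ℕ → Bool := fun p τ K =>
    if τ = 0 then true else
      dec (((covSets p.1 K (p.1.headD []).length,
        2 * K * (p.1.length * K + 1) + (p.1.length * K - p.2)), K), p.1.headD [])
  let κ : ℕ → ℕ → ℕ := fun τ m => min (2 ^ min τ m) m
  refine ⟨fun p => A p (t (p.1.headD []).length)
      (κ (t (p.1.headD []).length) (p.1.headD []).length), PT.isPolyTime ?_,
    (dec_iff _ (fun p => A p (t (p.1.headD []).length)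
      (κ (t (p.1.headD []).length) (p.1.headD []).length))).mpr fun n m F k hn hk => ?_⟩
  · have h1 : PT (fun p : List (List Bool) × ℕ => t (p.1.headD []).length) :=
      ht.comp' (f := fun p : List (List Bool) × ℕ => p.1.headD []) (by fun_prop)
    have : ∀ τ K : List (List Bool) × ℕ → ℕ, PT τ → PT K → PB K →
        PT (fun p : List (List Bool) × ℕ => A p (τ p) (K p)) := by
      intro τ K hτ hK bK
      have h3 : PT (fun p : List (List Bool) × ℕ => covSets p.1 (K p) (p.1.headD []).length) :=
        covSets_pt (by fun_prop) hK (by fun_prop) bK (by fun_prop)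
      exact PT.ite (by fun_prop) (PT.const _) (hdec.comp'
        (PT.pair (PT.pair (PT.pair h3 (by fun_prop)) hK) (by fun_prop)))
    refine this _ _ h1 ?_ (PB.min_right (by fun_prop) _)
    have h5 : ∀ τ : List (List Bool) × ℕ → ℕ, PT τ →
        PT (fun p : List (List Bool) × ℕ => min (2 ^ min (τ p) (p.1.headD []).length)
          (p.1.headD []).length) := by
      intro τ hτ; fun_prop
    exact h5 _ h1
  · have hm := head_mat hn m F
    simp only [hm, A, κ]
    split_ifs with h0
    · exact ⟨fun _ => ⟨∅, by simp, by simp, by simp⟩, fun _ => rfl⟩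
    · obtain ⟨h2, -, h4⟩ := hok m h0
      have h1 := hle m
      have hlen : (mat n m F).length = n := by simp [mat]
      rw [min_eq_left (by omega : t m ≤ m), min_eq_left (by omega : 2 ^ t m ≤ m), hlen,
        h4 _ _ hm]
      exact sel_iff_cov F (by positivity) (by omega) hk

end Pool.Agent.Lib.MP_8eff38_lc
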